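import Pool.Agent.Work.MP_0eb8a1_h84.Interface

/-! # CL2: an edge from a vertex of degree `d` to an isolated vertex -/

set_option autoImplicit false

namespace Pool.Agent.Work.MP_0eb8a1_h84

theorem CL2.split {n : ℕ} (f : Fin n → ℕ) (d : ℕ) (t : Multiset ℕ)
    (h : Finset.univ.val.map f = d ::ₘ 0 ::ₘ t) :
    ∃ (u w : Fin n) (r : Multiset (Fin n)), Finset.univ.val = u ::ₘ w ::ₘ r ∧ f u = d ∧ f w = 0 ∧
      r.map f = t := by
  obtain ⟨u, hu, hud, hr⟩ := (Multiset.map_eq_cons f Finset.univ.val (0 ::ₘ t) d).2 h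
  obtain ⟨w, hw, hwd, hr2⟩ := (Multiset.map_eq_cons f (Finset.univ.val.erase u) t 0).2 hr
  refine ⟨u, w, (Finset.univ.val.erase u).erase w, ?_, hud, hwd, hr2⟩
  rw [Multiset.cons_erase hw, Multiset.cons_erase hu]

theorem p_CL2 : S_CL2 := by
  rintro n d t ⟨G, hG⟩
  obtain ⟨u, w, r, huni, hu, hw, hr⟩ := CL2.split (fun v => (G.neighborSet v).ncard) d t hG
  have hnd : (u ::ₘ w ::ₘ r).Nodup := by
    rw [← huni]
    exact Finset.univ.nodup
  rw [Multiset.nodup_cons, Multiset.nodup_cons] at hnd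
  obtain ⟨hu1, hw1, -⟩ := hnd
  have huw : u ≠ w := fun e => hu1 (e ▸ Multiset.mem_cons_self _ _)
  have hw0 : G.neighborSet w = ∅ := (Set.ncard_eq_zero (Set.toFinite _)).1 hw
  have hwn : ∀ v, ¬ G.Adj w v := by
    intro v hv
    have h1 : v ∈ G.neighborSet w := hv
    rw [hw0] at h1
    exact h1
  refine ⟨G ⊔ SimpleGraph.edge u w, ?_⟩
  have hadj : ∀ a b, (G ⊔ SimpleGraph.edge u w).Adj a b ↔
      G.Adj a b ∨ ((a = u ∧ b = w) ∨ (a = w ∧ b = u)) := by
    intro a b
    rw [SimpleGraph.sup_adj, SimpleGraph.edge_adj]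
    constructor
    · rintro (h1 | ⟨h1, -⟩)
      · exact Or.inl h1
      · exact Or.inr h1
    · rintro (h1 | h1)
      · exact Or.inl h1
      · refine Or.inr ⟨h1, ?_⟩
        rcases h1 with ⟨h1, h2⟩ | ⟨h1, h2⟩
        · rw [h1, h2]; exact huw
        · rw [h1, h2]; exact huw.symm
  have h1 : ((G ⊔ SimpleGraph.edge u w).neighborSet u).ncard = d + 1 := by
    have h2 : (G ⊔ SimpleGraph.edge u w).neighborSet u = insert w (G.neighborSet u) := by
      ext v
      rw [SimpleGraph.mem_neighborSet, hadj, Set.mem_insert_iff, SimpleGraph.mem_neighborSet]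
      constructor
      · rintro (h3 | ⟨-, h3⟩ | ⟨h3, -⟩)
        · exact Or.inr h3
        · exact Or.inl h3
        · exact absurd h3 huw
      · rintro (h3 | h3)
        · exact Or.inr (Or.inl ⟨rfl, h3⟩)
        · exact Or.inl h3
    have h4 : w ∉ G.neighborSet u := fun h3 => hwn u (G.adj_symm h3)
    rw [h2, Set.ncard_insert_of_notMem h4 (Set.toFinite _)]
    exact congrArg (· + 1) hu
  have h2 : ((G ⊔ SimpleGraph.edge u w).neighborSet w).ncard = 1 := by
    have h3 : (G ⊔ SimpleGraph.edge u w).neighborSet w = {u} := by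
      ext v
      rw [SimpleGraph.mem_neighborSet, hadj, Set.mem_singleton_iff]
      constructor
      · rintro (h4 | ⟨h4, -⟩ | ⟨-, h4⟩)
        · exact absurd h4 (hwn v)
        · exact absurd h4 huw.symm
        · exact h4
      · intro h4
        exact Or.inr (Or.inr ⟨rfl, h4⟩)
    rw [h3, Set.ncard_singleton]
  have h3 : ∀ v ∈ r, ((G ⊔ SimpleGraph.edge u w).neighborSet v).ncard =
      (G.neighborSet v).ncard := by
    intro v hv
    have hvu : v ≠ u := fun e => hu1 (Multiset.mem_cons_of_mem (e ▸ hv))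
    have hvw : v ≠ w := fun e => hw1 (e ▸ hv)
    congr 1
    ext x
    rw [SimpleGraph.mem_neighborSet, hadj, SimpleGraph.mem_neighborSet]
    constructor
    · rintro (h4 | ⟨h4, -⟩ | ⟨h4, -⟩)
      · exact h4
      · exact absurd h4 hvu
      · exact absurd h4 hvw
    · intro h4
      exact Or.inl h4
  unfold degs
  rw [huni, Multiset.map_cons, Multiset.map_cons, h1, h2, Multiset.map_congr rfl h3, hr]

end Pool.Agent.Work.MP_0eb8a1_h84
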