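import Pool.Agent.Work.MP_0eb8a1_h84.Interface

/-!
# Block CL4: disjoint union
-/

set_option autoImplicit false

namespace Pool.Agent.Work.MP_0eb8a1_h84

namespace Cl4

theorem nb_inl {α β : Type} (G₁ : SimpleGraph α) (G₂ : SimpleGraph β) (v : α) :
    (G₁ ⊕g G₂).neighborSet (Sum.inl v) = Sum.inl '' G₁.neighborSet v := by
  ext u
  rcases u with u | u
  · simp [SimpleGraph.mem_neighborSet]
  · simp [SimpleGraph.mem_neighborSet]

theorem nb_inr {α β : Type} (G₁ : SimpleGraph α) (G₂ : SimpleGraph β) (v : β) :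
    (G₁ ⊕g G₂).neighborSet (Sum.inr v) = Sum.inr '' G₂.neighborSet v := by
  ext u
  rcases u with u | u
  · simp [SimpleGraph.mem_neighborSet]
  · simp [SimpleGraph.mem_neighborSet]

theorem nb_comap {α β : Type} (H : SimpleGraph α) (e : α ≃ β) (b : β) :
    ((H.comap e.symm).neighborSet b).ncard = (H.neighborSet (e.symm b)).ncard := by
  have h : (H.comap e.symm).neighborSet b = e '' H.neighborSet (e.symm b) := by
    rw [Equiv.image_eq_preimage_symm]
    rfl
  rw [h, Set.ncard_image_of_injective _ e.injective]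

end Cl4

open Cl4 in
theorem p_CL4 : S_CL4 := by
  rintro n m s t ⟨G₁, rfl⟩ ⟨G₂, rfl⟩
  refine ⟨(G₁ ⊕g G₂).comap finSumFinEquiv.symm, ?_⟩
  unfold degs
  have h1 : (fun v : Fin (n + m) => (((G₁ ⊕g G₂).comap finSumFinEquiv.symm).neighborSet v).ncard) =
      (fun v : Fin n ⊕ Fin m => ((G₁ ⊕g G₂).neighborSet v).ncard) ∘ finSumFinEquiv.symm := by
    funext v
    exact nb_comap (G₁ ⊕g G₂) finSumFinEquiv v
  rw [h1, ← Multiset.map_map, Multiset.map_univ_val_equiv]
  have h2 : (Finset.univ : Finset (Fin n ⊕ Fin m)).val =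
      (Finset.univ : Finset (Fin n)).val.map Sum.inl + (Finset.univ : Finset (Fin m)).val.map Sum.inr := rfl
  rw [h2, Multiset.map_add, Multiset.map_map, Multiset.map_map]
  congr 1
  · refine Multiset.map_congr rfl fun v _ => ?_
    rw [Function.comp_apply, nb_inl, Set.ncard_image_of_injective _ Sum.inl_injective]
  · refine Multiset.map_congr rfl fun v _ => ?_
    rw [Function.comp_apply, nb_inr, Set.ncard_image_of_injective _ Sum.inr_injective]

end Pool.Agent.Work.MP_0eb8a1_h84
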