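import Pool.Agent.Work.MP_0eb8a1_h84.Interface

set_option autoImplicit false

namespace Pool.Agent.Work.MP_0eb8a1_h84

namespace Cmp

theorem ncard_nb {n : ℕ} (G : SimpleGraph (Fin n)) (v : Fin n) [Fintype (G.neighborSet v)] :
    (G.neighborSet v).ncard = G.degree v := by
  rw [Set.ncard_eq_toFinset_card']
  rfl

theorem nb_le {n : ℕ} (G : SimpleGraph (Fin n)) (v : Fin n) :
    (G.neighborSet v).ncard + 1 ≤ n := by
  classical
  rw [ncard_nb]
  have h := G.degree_lt_card_verts v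
  rw [Fintype.card_fin] at h
  omega

theorem nb_compl {n : ℕ} (G : SimpleGraph (Fin n)) (v : Fin n) :
    (Gᶜ.neighborSet v).ncard = n - 1 - (G.neighborSet v).ncard := by
  classical
  rw [ncard_nb, ncard_nb, SimpleGraph.degree_compl, Fintype.card_fin]

theorem card_degs {n : ℕ} (G : SimpleGraph (Fin n)) : (degs G).card = n := by
  unfold degs
  rw [Multiset.card_map, Finset.card_val, Finset.card_univ, Fintype.card_fin]

theorem degs_le {n : ℕ} (G : SimpleGraph (Fin n)) : ∀ d ∈ degs G, d ≤ n - 1 := by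
  intro d hd
  unfold degs at hd
  obtain ⟨v, -, rfl⟩ := Multiset.mem_map.1 hd
  have := nb_le G v
  omega

theorem degs_compl {n : ℕ} (G : SimpleGraph (Fin n)) :
    degs Gᶜ = (degs G).map fun d => n - 1 - d := by
  unfold degs
  rw [Multiset.map_map]
  exact Multiset.map_congr rfl fun v _ => nb_compl G v

theorem sum_degs {n : ℕ} (G : SimpleGraph (Fin n)) :
    (degs G).sum + (degs Gᶜ).sum = n * (n - 1) := by
  unfold degs
  change ∑ v, (G.neighborSet v).ncard + ∑ v, (Gᶜ.neighborSet v).ncard = _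
  rw [← Finset.sum_add_distrib, Finset.sum_congr rfl (g := fun _ => n - 1)]
  · rw [Finset.sum_const, Finset.card_univ, Fintype.card_fin, smul_eq_mul]
  · intro v _
    have h1 := nb_le G v
    rw [nb_compl]
    omega

theorem invol {n : ℕ} (s : Multiset ℕ) (hs : ∀ d ∈ s, d ≤ n - 1) :
    (s.map fun d => n - 1 - d).map (fun d => n - 1 - d) = s := by
  rw [Multiset.map_map]
  conv_rhs => rw [← Multiset.map_id s]
  refine Multiset.map_congr rfl fun d hd => ?_
  have := hs d hd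
  simp only [Function.comp_apply, id]
  omega

theorem pos {n : ℕ} (hn : 2 ≤ n) (G : SimpleGraph (Fin n)) (hG : G.Connected) :
    ∀ d ∈ degs G, 1 ≤ d := by
  classical
  intro d hd
  unfold degs at hd
  obtain ⟨v, -, rfl⟩ := Multiset.mem_map.1 hd
  haveI : Nontrivial (Fin n) := Fin.nontrivial_iff_two_le.2 hn
  rw [ncard_nb]
  exact hG.preconnected.degree_pos_of_nontrivial v

end Cmp

theorem p_CMP (hCON : S_CON) : S_CMP := by
  intro n M hM
  have h2M : 2 * M ≤ n * (n - 1) := by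
    obtain ⟨m, rfl⟩ : ∃ m, n = m + 2 := ⟨n - 2, by omega⟩
    have h1 : m + 2 - 1 = m + 1 := by omega
    rw [h1]
    nlinarith
  unfold F
  refine Set.ncard_congr (fun s _ => s.map fun d => n - 1 - d) ?_ ?_ ?_
  · rintro s ⟨-, -, hsum, ⟨G, rfl⟩, -⟩
    refine ⟨⟨Gᶜ, Cmp.degs_compl G⟩, ?_⟩
    have h1 := Cmp.sum_degs G
    rw [Cmp.degs_compl] at h1
    omega
  · rintro s s' ⟨-, -, -, ⟨G, rfl⟩, -⟩ ⟨-, -, -, ⟨G', rfl⟩, -⟩ h
    have h1 := congrArg (Multiset.map fun d => n - 1 - d) h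
    rw [Cmp.invol _ (Cmp.degs_le G), Cmp.invol _ (Cmp.degs_le G')] at h1
    exact h1
  · rintro t ⟨⟨H, rfl⟩, hsum⟩
    have hs := Cmp.sum_degs H
    have hconn : ∀ G : SimpleGraph (Fin n), degs G = degs Hᶜ → G.Connected := by
      intro G hG
      apply hCON n M G hM
      rw [hG]
      omega
    refine ⟨degs Hᶜ, ⟨Cmp.card_degs _, Cmp.pos (by omega) _ (hconn _ rfl), by omega,
      ⟨Hᶜ, rfl⟩, hconn⟩, ?_⟩
    rw [← Cmp.degs_compl, compl_compl]

end Pool.Agent.Work.MP_0eb8a1_h84
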