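import Pool.Agent.Work.MP_0eb8a1_h84.Interface

/-!
# Block CON: few missing edges force connectedness (typed by helper53)
-/

set_option autoImplicit false

namespace Pool.Agent.Work.MP_0eb8a1_h84

namespace Con

theorem sum_eq {n : ℕ} (G : SimpleGraph (Fin n)) :
    (degs G).sum = ∑ v : Fin n, (G.neighborSet v).ncard := rfl

theorem bound {n : ℕ} (G : SimpleGraph (Fin n)) (S : Finset (Fin n))
    (hS : ∀ v w, G.Adj v w → (v ∈ S ↔ w ∈ S)) (v : Fin n) :
    (v ∈ S → (G.neighborSet v).ncard ≤ S.card - 1) := by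
  classical
  intro hv
  have h1 : G.neighborSet v ⊆ ((S.erase v : Finset (Fin n)) : Set (Fin n)) := by
    intro w hw
    rw [SimpleGraph.mem_neighborSet] at hw
    rw [Finset.mem_coe, Finset.mem_erase]
    exact ⟨hw.ne', (hS v w hw).1 hv⟩
  have h2 := Set.ncard_le_ncard h1 (Finset.finite_toSet _)
  rwa [Set.ncard_coe_finset, Finset.card_erase_of_mem hv] at h2

end Con

open Con in
theorem p_CON : S_CON := by
  classical
  intro n M G hM hsum
  have hn : 0 < n := by omega
  rw [SimpleGraph.connected_iff]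
  refine ⟨?_, ⟨⟨0, hn⟩⟩⟩
  by_contra hnot
  unfold SimpleGraph.Preconnected at hnot
  push Not at hnot
  obtain ⟨u, v, huv⟩ := hnot
  let S : Finset (Fin n) := Finset.univ.filter fun w => G.Reachable u w
  have hmem : ∀ w, w ∈ S ↔ G.Reachable u w := by
    intro w
    rw [Finset.mem_filter]
    exact ⟨fun h => h.2, fun h => ⟨Finset.mem_univ _, h⟩⟩
  have hS : ∀ x w, G.Adj x w → (x ∈ S ↔ w ∈ S) := by
    intro x w h
    rw [hmem, hmem]
    exact ⟨fun h1 => h1.trans h.reachable, fun h1 => h1.trans h.symm.reachable⟩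
  have hSc : ∀ x w, G.Adj x w → (x ∈ Sᶜ ↔ w ∈ Sᶜ) := by
    intro x w h
    rw [Finset.mem_compl, Finset.mem_compl, hS x w h]
  have hu : u ∈ S := (hmem u).2 (SimpleGraph.Reachable.refl u)
  have hv : v ∈ Sᶜ := by
    rw [Finset.mem_compl, hmem]
    exact huv
  obtain ⟨a, ha⟩ : ∃ a, S.card = a + 1 := ⟨S.card - 1, by
    have := Finset.card_pos.2 ⟨u, hu⟩
    omega⟩
  obtain ⟨b, hb⟩ : ∃ b, (Sᶜ).card = b + 1 := ⟨(Sᶜ).card - 1, by
    have := Finset.card_pos.2 ⟨v, hv⟩
    omega⟩
  have hcard : S.card + (Sᶜ).card = n := by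
    rw [Finset.card_add_card_compl, Fintype.card_fin]
  have h1 : ∑ w ∈ S, (G.neighborSet w).ncard ≤ (a + 1) * a := by
    have h2 := Finset.sum_le_card_nsmul S (fun w => (G.neighborSet w).ncard) (S.card - 1)
      (fun w hw => bound G S hS w hw)
    rw [ha, smul_eq_mul, Nat.add_sub_cancel] at h2
    exact h2
  have h2 : ∑ w ∈ Sᶜ, (G.neighborSet w).ncard ≤ (b + 1) * b := by
    have h2 := Finset.sum_le_card_nsmul Sᶜ (fun w => (G.neighborSet w).ncard) ((Sᶜ).card - 1)
      (fun w hw => bound G Sᶜ hSc w hw)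
    rw [hb, smul_eq_mul, Nat.add_sub_cancel] at h2
    exact h2
  have h3 : (degs G).sum ≤ (a + 1) * a + (b + 1) * b := by
    rw [sum_eq, ← Finset.sum_add_sum_compl S]
    exact add_le_add h1 h2
  have hn2 : n = a + b + 2 := by omega
  have h4 : n * (n - 1) = (a + b + 2) * (a + b + 1) := by
    rw [hn2]
    rfl
  rw [h4] at hsum
  have hM' : M ≤ a + b := by omega
  nlinarith [Nat.zero_le (a * b)]

end Pool.Agent.Work.MP_0eb8a1_h84
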