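import Pool.Agent.Work.MP_0eb8a1_h84.Interface

/-!
# Block CONJ: conjugate partitions, through Young diagrams
-/

set_option autoImplicit false

namespace Pool.Agent.Work.MP_0eb8a1_h84

namespace Conj

theorem sorted (s : Multiset ℕ) : (s.sort (· ≥ ·)).SortedGE := by
  have h := s.pairwise_sort (· ≥ ·)
  exact h.sortedGE

/-- the Young diagram of a multiset -/
noncomputable def Y (s : Multiset ℕ) : YoungDiagram := YoungDiagram.ofRowLens (s.sort (· ≥ ·)) (sorted s)

theorem lens_Y {s : Multiset ℕ} (hs : ∀ d ∈ s, 1 ≤ d) : ((Y s).rowLens : Multiset ℕ) = s := by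
  unfold Y
  rw [YoungDiagram.rowLens_ofRowLens_eq_self (by intro x hx; exact hs x (by simpa using hx))]
  exact Multiset.sort_eq s _

theorem Y_lens (μ : YoungDiagram) : Y (μ.rowLens : Multiset ℕ) = μ := by
  have h0 : ((μ.rowLens : Multiset ℕ).sort (· ≥ ·)) = μ.rowLens := by
    apply List.Perm.eq_of_sortedGE (sorted _) μ.rowLens_sorted
    rw [← Multiset.coe_eq_coe, Multiset.sort_eq]
  have h1 : ∀ (l : List ℕ) (hl : l.SortedGE), l = μ.rowLens → YoungDiagram.ofRowLens l hl = μ := by
    intro l hl e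
    subst e
    exact YoungDiagram.ofRowLens_to_rowLens_eq_self
  exact h1 _ _ h0

theorem sup_lens (μ : YoungDiagram) : (μ.rowLens : Multiset ℕ).sup = μ.rowLen 0 := by
  apply le_antisymm
  · rw [Multiset.sup_le]
    intro x hx
    rw [Multiset.mem_coe, YoungDiagram.rowLens, List.mem_map] at hx
    obtain ⟨i, -, rfl⟩ := hx
    exact μ.rowLen_anti 0 i (Nat.zero_le i)
  · rcases Nat.eq_zero_or_pos (μ.rowLen 0) with h | h
    · rw [h]
      exact Nat.zero_le _
    · apply Multiset.le_sup
      rw [Multiset.mem_coe, YoungDiagram.rowLens, List.mem_map]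
      refine ⟨0, ?_, rfl⟩
      rw [List.mem_range, ← YoungDiagram.mem_iff_lt_colLen, YoungDiagram.mem_iff_lt_rowLen]
      exact h

theorem sum_lens (μ : YoungDiagram) : (μ.rowLens : Multiset ℕ).sum = μ.cells.card := by
  rw [Multiset.sum_coe, YoungDiagram.rowLens]
  have h1 : μ.cells.card = ∑ i ∈ Finset.range (μ.colLen 0), μ.rowLen i := by
    rw [Finset.card_eq_sum_card_fiberwise (f := Prod.fst) (t := Finset.range (μ.colLen 0))]
    · apply Finset.sum_congr rfl
      intro i _
      rw [YoungDiagram.rowLen_eq_card]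
      rfl
    · rintro ⟨i, j⟩ h
      have h2 : (i, j) ∈ μ := h
      show i ∈ (Finset.range (μ.colLen 0) : Set ℕ)
      rw [Finset.mem_coe, Finset.mem_range, ← YoungDiagram.mem_iff_lt_colLen]
      exact μ.up_left_mem le_rfl (Nat.zero_le j) h2
  rw [h1, Finset.sum_range, ← List.sum_ofFn]
  congr 1
  apply List.ext_getElem
  · simp
  · intro i h2 h3
    simp

theorem card_transpose (μ : YoungDiagram) : μ.transpose.cells.card = μ.cells.card := by
  simp [YoungDiagram.transpose]

theorem card_lens (μ : YoungDiagram) : (μ.rowLens : Multiset ℕ).card = μ.colLen 0 := by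
  rw [Multiset.coe_card, YoungDiagram.length_rowLens]

/-- the conjugate partition -/
noncomputable def T (s : Multiset ℕ) : Multiset ℕ := ((Y s).transpose.rowLens : Multiset ℕ)

end Conj

theorem p_CONJ : S_CONJ := by
  refine ⟨Conj.T, fun s hs => ?_⟩
  have h1 := Conj.lens_Y hs
  refine ⟨?_, ?_, ?_, ?_, ?_⟩
  · intro d hd
    exact YoungDiagram.pos_of_mem_rowLens _ d hd
  · unfold Conj.T
    rw [Conj.sum_lens, Conj.card_transpose, ← Conj.sum_lens, h1]
  · unfold Conj.T
    rw [Conj.card_lens, YoungDiagram.colLen_transpose, ← Conj.sup_lens, h1]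
  · unfold Conj.T
    rw [Conj.sup_lens, YoungDiagram.rowLen_transpose, ← Conj.card_lens, h1]
  · unfold Conj.T
    rw [Conj.Y_lens, YoungDiagram.transpose_transpose, h1]

end Pool.Agent.Work.MP_0eb8a1_h84
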