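import Pool.Agent.Work.MP_0eb8a1_h84.Interface2

/-!
# MP_0eb8a1_co, block CYC: a cycle and isolated vertices
-/

set_option autoImplicit false

namespace Pool.Agent.Work.MP_0eb8a1_h84

namespace Cyc

theorem cyc (k : ℕ) : Graphical (k + 3) (Multiset.replicate (k + 3) 2) := by
  refine ⟨SimpleGraph.cycleGraph (k + 3), ?_⟩
  rw [degs, Multiset.eq_replicate]
  constructor
  · simp
  · intro b hb
    rw [Multiset.mem_map] at hb
    obtain ⟨v, -, rfl⟩ := hb
    rw [Set.ncard_eq_toFinset_card']
    have := SimpleGraph.cycleGraph_degree_three_le (n := k) (v := v)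
    rw [← this]
    rfl

theorem addZeros (hCL1 : S_CL1) (m : ℕ) (s : Multiset ℕ) (h : Graphical m s) (j : ℕ) :
    Graphical (m + j) (s + Multiset.replicate j 0) := by
  induction j with
  | zero => simpa using h
  | succ j ih =>
    have := hCL1 _ _ ih
    rw [Multiset.replicate_succ, Multiset.add_cons]
    exact this

end Cyc

theorem p_CYC (hCL1 : S_CL1) : S_CYC := by
  intro n M hM hn
  obtain ⟨k, rfl⟩ : ∃ k, M = k + 2 := ⟨M - 2, by omega⟩
  refine ⟨?_, ?_⟩
  · have h1 := Cyc.addZeros hCL1 _ _ (Cyc.cyc k) (n - (k + 3))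
    have e : k + 3 + (n - (k + 3)) = n := by omega
    rw [e] at h1
    have e2 : n - (k + 2) - 1 = n - (k + 3) := by omega
    rw [e2]
    exact h1
  · rw [Multiset.sum_add, Multiset.sum_replicate, Multiset.sum_replicate]
    simp
    ring

end Pool.Agent.Work.MP_0eb8a1_h84
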