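import Pool.Agent.Work.MP_0eb8a1_h84.Interface

/-!
# Block E1
-/

set_option autoImplicit false

namespace Pool.Agent.Work.MP_0eb8a1_h84

namespace EOne

theorem sup_mem (l : Multiset ℕ) : 1 ≤ l.sup → l.sup ∈ l := by
  induction l using Multiset.induction_on with
  | empty =>
    intro h
    simp at h
  | cons a s ih =>
    intro h
    rw [Multiset.sup_cons] at h ⊢
    rcases le_total s.sup a with h1 | h1
    · rw [sup_eq_left.2 h1]
      exact Multiset.mem_cons_self a s
    · rw [sup_eq_right.2 h1] at h ⊢
      exact Multiset.mem_cons_of_mem (ih h)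

theorem rel_rep (x : Multiset ℕ) : (∀ d ∈ x, 1 ≤ d) →
    Multiset.Rel (· ≤ ·) (Multiset.replicate x.card 2) (x.map (· + 1)) := by
  induction x using Multiset.induction_on with
  | empty =>
    intro _
    exact Multiset.Rel.zero
  | cons a s ih =>
    intro h
    rw [Multiset.card_cons, Multiset.replicate_succ, Multiset.map_cons]
    refine Multiset.Rel.cons ?_ (ih fun d hd => h d (Multiset.mem_cons_of_mem hd))
    have := h a (Multiset.mem_cons_self a s)
    show 2 ≤ a + 1
    omega

theorem card_le_sum (x : Multiset ℕ) : (∀ d ∈ x, 1 ≤ d) → x.card ≤ x.sum := by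
  induction x using Multiset.induction_on with
  | empty =>
    intro _
    simp
  | cons a s ih =>
    intro h
    rw [Multiset.card_cons, Multiset.sum_cons]
    have h1 := ih fun d hd => h d (Multiset.mem_cons_of_mem hd)
    have h2 := h a (Multiset.mem_cons_self a s)
    omega

theorem sum_map_one (x : Multiset ℕ) : (x.map (· + 1)).sum = x.sum + x.card := by
  rw [Multiset.sum_map_add]
  simp

theorem split (l : Multiset ℕ) (n : ℕ) (h : n ≤ l.card) :
    ∃ x y : Multiset ℕ, l = x + y ∧ x.card = n := by
  obtain ⟨L, rfl⟩ := Quot.exists_rep l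
  refine ⟨(L.take n : Multiset ℕ), (L.drop n : Multiset ℕ), ?_, ?_⟩
  · rw [Multiset.coe_add, List.take_append_drop]
    rfl
  · rw [Multiset.coe_card, List.length_take]
    exact min_eq_left h

end EOne

open EOne in
theorem p_E1 (h1 : S_CL4) (h2 : S_HUB) (h3 : S_FL) (h4 : S_RL) : S_E1 := by
  intro r c l hc hl hsum hsup1 hsup
  obtain ⟨l', hl'⟩ := Multiset.exists_cons_of_mem (sup_mem l hsup1)
  set a := l.sup with ha
  have hk : l.card = l'.card + 1 := by
    conv_lhs => rw [hl']
    rw [Multiset.card_cons]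
  have hr : r = a + l'.sum := by
    rw [← hsum]
    conv_lhs => rw [hl']
    rw [Multiset.sum_cons]
  have hl1 : ∀ d ∈ l', 1 ≤ d := fun d hd => hl d (by
    rw [hl']
    exact Multiset.mem_cons_of_mem hd)
  obtain ⟨x, y, hxy, hx⟩ := split l' (a - 1) (by omega)
  have hx1 : ∀ d ∈ x, 1 ≤ d := fun d hd => hl1 d (by
    rw [hxy]
    exact Multiset.mem_add.2 (Or.inl hd))
  have hy1 : ∀ d ∈ y, 1 ≤ d := fun d hd => hl1 d (by
    rw [hxy]
    exact Multiset.mem_add.2 (Or.inr hd))
  have cx := card_le_sum x hx1
  have cy := card_le_sum y hy1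
  have hcard : l'.card = x.card + y.card := by rw [hxy, Multiset.card_add]
  have hs : l'.sum = x.sum + y.sum := by rw [hxy, Multiset.sum_add]
  refine ⟨by omega, ?_⟩
  -- the first component
  have g1 := h4 ((a - 1 + 1) ::ₘ (a - 1 + 1) ::ₘ Multiset.replicate (a - 1) 2)
    ((a + 1) ::ₘ (a + 1) ::ₘ x.map (· + 1)) (by
      refine Multiset.Rel.cons (by omega) (Multiset.Rel.cons (by omega) ?_)
      rw [← hx]
      exact rel_rep x hx1) 0 (by
      have g := h2 (a - 1)
      simp only [Multiset.card_cons, Multiset.card_replicate, Multiset.card_zero, add_zero]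
      exact g)
  simp only [Multiset.card_cons, Multiset.card_map, Multiset.card_zero, add_zero,
    Multiset.sum_cons, Multiset.sum_replicate, sum_map_one, smul_eq_mul] at g1
  have q1 : a + 1 + (a + 1 + (x.sum + x.card)) - (a - 1 + 1 + (a - 1 + 1 + (a - 1) * 2)) =
      x.sum + 3 - a := by omega
  rw [q1] at g1
  -- the second component
  have g2 := h3 (y.map (· + 1) + Multiset.replicate (y.sum + 2 * c - 2 - y.card) 1) (by
      intro d hd
      rcases Multiset.mem_add.1 hd with h | h
      · obtain ⟨e, _, rfl⟩ := Multiset.mem_map.1 h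
        omega
      · rw [Multiset.eq_of_mem_replicate h]) (by
      rw [Multiset.sum_add, sum_map_one, Multiset.sum_replicate, smul_eq_mul]
      refine ⟨y.sum + c - 1, ?_⟩
      omega) (by
      rw [Multiset.sum_add, sum_map_one, Multiset.sum_replicate, smul_eq_mul, Multiset.card_add,
        Multiset.card_map, Multiset.card_replicate]
      omega)
  rw [Multiset.card_add, Multiset.card_map, Multiset.card_replicate] at g2
  have g := h1 _ _ _ _ g1 g2
  have e1 : x.card + 1 + 1 + (x.sum + 3 - a) + (y.card + (y.sum + 2 * c - 2 - y.card)) =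
      r + 2 * c + 2 - a := by omega
  have e2 : (a + 1) ::ₘ (a + 1) ::ₘ x.map (· + 1) + Multiset.replicate (x.sum + 3 - a) 1 +
      (y.map (· + 1) + Multiset.replicate (y.sum + 2 * c - 2 - y.card) 1) =
      (a + 1) ::ₘ l.map (· + 1) + Multiset.replicate (r + 2 * c + 1 - a - l.card) 1 := by
    have e3 : r + 2 * c + 1 - a - l.card =
        (x.sum + 3 - a) + (y.sum + 2 * c - 2 - y.card) := by omega
    have e4 : l.map (· + 1) = (a + 1) ::ₘ (x.map (· + 1) + y.map (· + 1)) := by
      conv_lhs => rw [hl']
      rw [Multiset.map_cons, hxy, Multiset.map_add]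
    rw [e3, e4, Multiset.replicate_add]
    simp only [Multiset.cons_add, add_zero]
    congr 2
    abel
  rw [e1, e2] at g
  exact g

end Pool.Agent.Work.MP_0eb8a1_h84
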