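import Pool.Agent.Work.MP_0eb8a1_h84.Interface

/-! # E3: the second family -/

set_option autoImplicit false

namespace Pool.Agent.Work.MP_0eb8a1_h84

namespace E3

theorem sup_mem (l : Multiset ℕ) : 1 ≤ l.sup → l.sup ∈ l := by
  induction l using Multiset.induction_on with
  | empty => intro h; simp at h
  | cons b m ih =>
    intro h
    rw [Multiset.sup_cons] at h ⊢
    rcases le_total b m.sup with h1 | h1
    · rw [sup_eq_right.2 h1] at h ⊢
      exact Multiset.mem_cons_of_mem (ih h)
    · rw [sup_eq_left.2 h1]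
      exact Multiset.mem_cons_self b m

theorem split (l : Multiset ℕ) (a : ℕ) (h : a ≤ l.card) :
    ∃ x y : Multiset ℕ, l = x + y ∧ x.card = a := by
  obtain ⟨L, rfl⟩ := Quot.exists_rep l
  refine ⟨(L.take a : List ℕ), (L.drop a : List ℕ), ?_, ?_⟩
  · rw [Multiset.coe_add, List.take_append_drop]
    rfl
  · rw [Multiset.coe_card, List.length_take]
    exact min_eq_left h

theorem card_le_sum (l : Multiset ℕ) (h : ∀ d ∈ l, 1 ≤ d) : l.card ≤ l.sum := by
  have := Multiset.card_nsmul_le_sum (s := l) (a := 1) h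
  simpa using this

theorem sum_map_succ (l : Multiset ℕ) : (l.map (· + 1)).sum = l.sum + l.card := by
  rw [Multiset.sum_map_add]
  simp

end E3

open E3 in
theorem p_E3 (h1 : S_CL4) (h2 : S_HUB) (h3 : S_FL) (h4 : S_RL) : S_E3 := by
  intro r c l hc hl hr ha hak
  obtain ⟨a, haD⟩ : ∃ a, a = l.sup := ⟨_, rfl⟩
  rw [← haD] at ha hak ⊢
  obtain ⟨l', hl'⟩ := Multiset.exists_cons_of_mem (haD ▸ sup_mem l (haD ▸ ha) : a ∈ l)
  subst hl'
  rw [Multiset.card_cons] at hak ⊢
  rw [Multiset.sum_cons] at hr
  obtain ⟨x, y, hxy, hx⟩ := split l' a (by omega)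
  subst hxy
  have hlx : ∀ d ∈ x, 1 ≤ d := fun d hd =>
    hl d (Multiset.mem_cons_of_mem (Multiset.mem_add.2 (Or.inl hd)))
  have hly : ∀ d ∈ y, 1 ≤ d := fun d hd =>
    hl d (Multiset.mem_cons_of_mem (Multiset.mem_add.2 (Or.inr hd)))
  have hxs := card_le_sum x hlx
  have hys := card_le_sum y hly
  rw [Multiset.card_add] at hak ⊢
  rw [Multiset.sum_add] at hr
  rw [hx] at hak hxs ⊢
  refine ⟨by omega, ?_⟩
  -- the first component
  have c1 := h4 ((a + 1) ::ₘ (a + 1) ::ₘ Multiset.replicate a 2)
    ((a + 1) ::ₘ (a + 1) ::ₘ x.map (· + 1)) (by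
      refine Multiset.Rel.cons le_rfl (Multiset.Rel.cons le_rfl ?_)
      have e : Multiset.replicate a 2 = x.map (fun _ => 2) := by
        rw [Multiset.map_const', hx]
      rw [e, Multiset.rel_map]
      refine Multiset.rel_refl_of_refl_on fun d hd => ?_
      have := hlx d hd
      omega) 0 (by
      have := h2 a
      simpa using this)
  have e1 : ((a + 1) ::ₘ (a + 1) ::ₘ x.map (· + 1)).sum -
      ((a + 1) ::ₘ (a + 1) ::ₘ Multiset.replicate a 2).sum = x.sum - a := by
    simp only [Multiset.sum_cons, sum_map_succ, Multiset.sum_replicate, smul_eq_mul, hx]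
    omega
  rw [e1] at c1
  simp only [Multiset.card_cons, Multiset.card_map, hx, Multiset.card_zero, add_zero] at c1
  -- the second component
  obtain ⟨q, hq⟩ : ∃ q, q = r + 2 * c - 1 - (y.card + 1 + a) - x.sum := ⟨_, rfl⟩
  have c2 := h3 (2 ::ₘ (y.map (· + 1) + Multiset.replicate q 1)) (by
      intro d hd
      rw [Multiset.mem_cons, Multiset.mem_add, Multiset.mem_map, Multiset.mem_replicate] at hd
      rcases hd with rfl | ⟨b, _, rfl⟩ | ⟨_, rfl⟩
      · norm_num
      · omega
      · norm_num) (by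
      rw [Multiset.sum_cons, Multiset.sum_add, sum_map_succ, Multiset.sum_replicate, smul_eq_mul,
        mul_one]
      refine ⟨r - a - x.sum + c, ?_⟩
      omega) (by
      rw [Multiset.sum_cons, Multiset.sum_add, sum_map_succ, Multiset.sum_replicate, smul_eq_mul,
        mul_one, Multiset.card_cons, Multiset.card_add, Multiset.card_map,
        Multiset.card_replicate]
      omega)
  have c3 := h1 _ _ _ _ c1 c2
  rw [Multiset.card_cons, Multiset.card_add, Multiset.card_map, Multiset.card_replicate] at c3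
  have e2 : a + 1 + 1 + (x.sum - a) + (y.card + q + 1) = r + 2 * c + 1 - a := by omega
  have e3 : r + 2 * c - 1 - a - (a + y.card + 1) = (x.sum - a) + q := by omega
  rw [e3, ← e2]
  convert c3 using 1
  rw [Multiset.map_cons, Multiset.map_add, Multiset.replicate_add]
  simp only [← Multiset.singleton_add]
  abel

end Pool.Agent.Work.MP_0eb8a1_h84
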