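import Pool.Agent.Work.MP_0eb8a1_h84.Interface

/-! # EMB -/

set_option autoImplicit false

namespace Pool.Agent.Work.MP_0eb8a1_h84

namespace Emb

theorem zeros (h : S_CL1) (m : ℕ) (s : Multiset ℕ) (hs : Graphical m s) (z : ℕ) :
    Graphical (m + z) (s + Multiset.replicate z 0) := by
  induction z with
  | zero => simpa using hs
  | succ z ih =>
    have h2 := h _ _ ih
    rw [Multiset.replicate_succ, Multiset.add_cons, ← Nat.add_assoc]
    exact h2

theorem sum_map (s : Multiset ℕ) : (s.map (· + 1)).sum = s.sum + s.card := by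
  induction s using Multiset.induction_on with
  | empty => simp
  | cons a s ih =>
    rw [Multiset.map_cons, Multiset.sum_cons, ih, Multiset.sum_cons, Multiset.card_cons]
    omega

theorem sum_emb (n M : ℕ) (mu : Multiset ℕ) (h : mu.sum + mu.card ≤ 2 * M + 2) :
    (emb n M mu).sum = 2 * (M + 1) := by
  unfold emb
  rw [Multiset.sum_add, Multiset.sum_add, sum_map, Multiset.sum_replicate, Multiset.sum_replicate,
    smul_eq_mul, smul_eq_mul]
  omega

end Emb

theorem p_EMB (h1 : S_E1) (h2 : S_E3) (h3 : S_FL) (h4 : S_CL1) : S_EMB := by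
  intro n M r c l hc hn hM hl hr
  refine ⟨fun hs => ?_, fun hs1 hs2 => ?_, fun hs1 hs2 => ?_⟩
  · have hone : ∀ d ∈ l, d = 1 := fun d hd =>
      le_antisymm ((Multiset.le_sup hd).trans hs) (hl d hd)
    have hlr : l = Multiset.replicate l.card 1 := Multiset.eq_replicate_card.2 hone
    have hcard : l.card = r := by
      rw [← hr]
      conv_rhs => rw [hlr, Multiset.sum_replicate, smul_eq_mul, mul_one]
    rw [hcard] at hlr
    have hmu : l + Multiset.replicate 3 1 = Multiset.replicate (r + 3) 1 := by
      rw [hlr, ← Multiset.replicate_add]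
    rw [hmu]
    have hsum : (Multiset.replicate (r + 3) 1).sum = r + 3 := by
      rw [Multiset.sum_replicate, smul_eq_mul, mul_one]
    refine ⟨?_, Emb.sum_emb _ _ _ (by rw [hsum, Multiset.card_replicate]; omega)⟩
    unfold emb
    rw [hsum, Multiset.card_replicate, Multiset.map_replicate]
    have e1 : 2 * M + 2 - (r + 3) - (r + 3) = 2 * c - 4 := by omega
    have e2 : n + (r + 3) - 2 * M - 2 = 1 := by omega
    rw [e1, e2]
    have h5 := h3 (Multiset.replicate (r + 3) (1 + 1) + Multiset.replicate (2 * c - 4) 1)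
      (by
        intro d hd
        rw [Multiset.mem_add] at hd
        rcases hd with hd | hd
        · rw [Multiset.eq_of_mem_replicate hd]; omega
        · rw [Multiset.eq_of_mem_replicate hd])
      (by
        rw [Multiset.sum_add, Multiset.sum_replicate, Multiset.sum_replicate, smul_eq_mul,
          smul_eq_mul]
        exact ⟨r + 3 + (c - 2), by omega⟩)
      (by
        rw [Multiset.sum_add, Multiset.sum_replicate, Multiset.sum_replicate, smul_eq_mul,
          smul_eq_mul, Multiset.card_add, Multiset.card_replicate, Multiset.card_replicate]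
        omega)
    have h6 := Emb.zeros h4 _ _ h5 1
    rw [Multiset.card_add, Multiset.card_replicate, Multiset.card_replicate] at h6
    have e3 : r + 3 + (2 * c - 4) + 1 = n := by omega
    rw [e3] at h6
    exact h6
  · obtain ⟨h5, h6⟩ := h1 r c l hc hl hr (by omega) hs2
    have hsum : (l.sup ::ₘ l).sum = l.sup + r := by rw [Multiset.sum_cons, hr]
    refine ⟨?_, Emb.sum_emb _ _ _ (by rw [hsum, Multiset.card_cons]; omega)⟩
    unfold emb
    rw [hsum, Multiset.card_cons, Multiset.map_cons]
    have e1 : 2 * M + 2 - (l.sup + r) - (l.card + 1) = r + 2 * c + 1 - l.sup - l.card := by omega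
    have e2 : n + (l.sup + r) - 2 * M - 2 = l.sup - 2 := by omega
    rw [e1, e2]
    have h7 := Emb.zeros h4 _ _ h6 (l.sup - 2)
    have e3 : r + 2 * c + 2 - l.sup + (l.sup - 2) = n := by omega
    rw [e3] at h7
    exact h7
  · obtain ⟨h5, h6⟩ := h2 r c l hc hl hr hs1 hs2
    have hsum : (l.sup ::ₘ 1 ::ₘ l).sum = l.sup + (1 + r) := by
      rw [Multiset.sum_cons, Multiset.sum_cons, hr]
    refine ⟨?_, Emb.sum_emb _ _ _ (by rw [hsum, Multiset.card_cons, Multiset.card_cons]; omega)⟩
    unfold emb
    rw [hsum, Multiset.card_cons, Multiset.card_cons, Multiset.map_cons, Multiset.map_cons]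
    have e1 : 2 * M + 2 - (l.sup + (1 + r)) - (l.card + 1 + 1) =
        r + 2 * c - 1 - l.sup - l.card := by omega
    have e2 : n + (l.sup + (1 + r)) - 2 * M - 2 = l.sup - 1 := by omega
    rw [e1, e2]
    have h7 := Emb.zeros h4 _ _ h6 (l.sup - 1)
    have e3 : r + 2 * c + 1 - l.sup + (l.sup - 1) = n := by omega
    rw [e3] at h7
    exact h7

end Pool.Agent.Work.MP_0eb8a1_h84
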