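import Pool.Agent.Work.MP_0eb8a1_h84.Interface

/-!
# Block FL: the degrees of forests
-/

set_option autoImplicit false

namespace Pool.Agent.Work.MP_0eb8a1_h84

namespace Fl

theorem zero : Graphical 0 0 := ⟨⊥, by simp [degs]⟩

theorem edge (h1 : S_CL1) (h2 : S_CL2) : Graphical 2 (1 ::ₘ 1 ::ₘ 0) := by
  have a1 := h1 _ _ zero
  have a2 := h1 _ _ a1
  exact h2 _ _ _ a2

theorem matching (h1 : S_CL1) (h2 : S_CL2) (h4 : S_CL4) :
    ∀ j : ℕ, Graphical (2 * j) (Multiset.replicate (2 * j) 1) := by
  intro j
  induction j with
  | zero => simpa using zero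
  | succ j ih =>
    have h5 := h4 _ _ _ _ ih (edge h1 h2)
    have e : Multiset.replicate (2 * (j + 1)) 1 = Multiset.replicate (2 * j) 1 + (1 ::ₘ 1 ::ₘ 0) := by
      have : (1 ::ₘ 1 ::ₘ 0 : Multiset ℕ) = Multiset.replicate 2 1 := rfl
      rw [this, ← Multiset.replicate_add]
      rfl
    rw [e]
    exact h5

/-- A multiset with positive parts and no part `1` has a large sum. -/
theorem no_one (s : Multiset ℕ) (hs : ∀ d ∈ s, 2 ≤ d) : 2 * s.card ≤ s.sum := by
  have := Multiset.card_nsmul_le_sum hs
  simpa [mul_comm] using this

end Fl

theorem p_FL (h1 : S_CL1) (h2 : S_CL2) (h4 : S_CL4) : S_FL := by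
  intro s
  induction hn : s.card using Nat.strong_induction_on generalizing s with
  | _ n ih =>
    intro hpos heven hle
    subst hn
    by_cases hall : ∀ d ∈ s, d = 1
    · have e : s = Multiset.replicate s.card 1 := Multiset.eq_replicate_card.2 hall
      have hsum : s.sum = s.card := by
        conv_lhs => rw [e]
        simp
      rw [hsum] at heven
      obtain ⟨j, hj⟩ := heven
      have hj2 : s.card = 2 * j := by omega
      rw [e, Multiset.card_replicate, hj2]
      exact Fl.matching h1 h2 h4 j
    · push Not at hall
      obtain ⟨d, hd, hd1⟩ := hall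
      have hd2 : 2 ≤ d := by
        have := hpos d hd
        omega
      obtain ⟨u, hu⟩ := Multiset.exists_cons_of_mem hd
      have h1s : 1 ∈ s := by
        by_contra hno
        have : 2 * s.card ≤ s.sum := Fl.no_one s (fun x hx => by
          have hx1 := hpos x hx
          have hx2 : x ≠ 1 := fun h => hno (h ▸ hx)
          omega)
        omega
      have h1u : 1 ∈ u := by
        rw [hu, Multiset.mem_cons] at h1s
        rcases h1s with h | h
        · omega
        · exact h
      obtain ⟨t, ht⟩ := Multiset.exists_cons_of_mem h1u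
      subst ht
      subst hu
      simp only [Multiset.sum_cons, Multiset.card_cons] at heven hle ⊢
      have h5 : Graphical (t.card + 1) ((d - 1) ::ₘ t) := by
        refine ih (t.card + 1) ?_ ((d - 1) ::ₘ t) ?_ ?_ ?_ ?_
        · simp only [Multiset.card_cons]
          omega
        · simp only [Multiset.card_cons]
        · intro x hx
          rw [Multiset.mem_cons] at hx
          rcases hx with h | h
          · omega
          · exact hpos x (by simp [h])
        · rw [Multiset.sum_cons]
          obtain ⟨r, hr⟩ := heven
          exact ⟨r - 1, by omega⟩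
        · rw [Multiset.sum_cons]
          omega
      have h6 := h1 _ _ h5
      rw [Multiset.cons_swap] at h6
      have h7 := h2 _ _ _ h6
      have e : d - 1 + 1 = d := by omega
      rw [e] at h7
      exact h7

end Pool.Agent.Work.MP_0eb8a1_h84
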