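import Pool.Agent.Work.MP_0eb8a1_h84.Interface

/-!
# MP_0eb8a1_co, block INJ: the injection
-/

set_option autoImplicit false

namespace Pool.Agent.Work.MP_0eb8a1_h84

namespace Inj

theorem sup_mem (s : Multiset ℕ) (h : s ≠ 0) : s.sup ∈ s := by
  induction s using Multiset.induction_on with
  | empty => exact absurd rfl h
  | cons a t ih =>
    rw [Multiset.sup_cons, Multiset.mem_cons]
    by_cases ht : t = 0
    · left
      rw [ht, Multiset.sup_zero]
      simp
    · rcases le_total a t.sup with h1 | h1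
      · right
        rw [sup_eq_right.2 h1]
        exact ih ht
      · left
        exact sup_eq_left.2 h1

theorem specA (s : Multiset ℕ) (h0 : 0 ∈ s) (hc : 2 ≤ s.card) :
    s = s.sup ::ₘ 0 ::ₘ ((s.erase s.sup).erase 0) := by
  have hs : s ≠ 0 := by
    rintro rfl
    simp at h0
  have h1 := sup_mem s hs
  have h2 : 0 ∈ s.erase s.sup := by
    by_cases h : s.sup = 0
    · have h3 : 0 < (s.erase s.sup).card := by
        rw [Multiset.card_erase_of_mem h1]
        exact Nat.lt_pred_iff.2 hc
      obtain ⟨x, hx⟩ := Multiset.card_pos_iff_exists_mem.1 h3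
      have h4 : x ≤ s.sup := Multiset.le_sup (Multiset.mem_of_mem_erase hx)
      have h5 : x = 0 := by omega
      rw [← h5]
      exact hx
    · exact (Multiset.mem_erase_of_ne (Ne.symm h)).2 h0
  rw [Multiset.cons_erase h2, Multiset.cons_erase h1]

/-- the first kind -/
def phA (s : Multiset ℕ) : Multiset ℕ := (s.sup + 1) ::ₘ 1 ::ₘ ((s.erase s.sup).erase 0)

theorem phA_le (s : Multiset ℕ) : ∀ x ∈ (s.erase s.sup).erase 0, x ≤ s.sup := fun _ hx =>
  Multiset.le_sup (Multiset.mem_of_mem_erase (Multiset.mem_of_mem_erase hx))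

theorem phA_sup (s : Multiset ℕ) : (phA s).sup = s.sup + 1 := by
  apply le_antisymm
  · rw [phA, Multiset.sup_le]
    intro x hx
    rw [Multiset.mem_cons, Multiset.mem_cons] at hx
    rcases hx with hx | hx | hx
    · omega
    · omega
    · have := phA_le s x hx
      omega
  · exact Multiset.le_sup (by rw [phA]; exact Multiset.mem_cons_self _ _)

theorem phA_count (s : Multiset ℕ) (h : 1 ≤ s.sup) : (phA s).count (s.sup + 1) = 1 := by
  rw [phA, Multiset.count_cons_self, Multiset.count_cons_of_ne (by omega), Multiset.count_eq_zero_of_notMem]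
  intro hx
  have := phA_le s _ hx
  omega

/-- the partition of the second kind -/
def mu (T : Multiset ℕ → Multiset ℕ) (l : Multiset ℕ) : Multiset ℕ :=
  if l.sup ≤ 1 then l + Multiset.replicate 3 1
  else if l.sup ≤ l.card then l.sup ::ₘ l
  else (T l).sup ::ₘ 1 ::ₘ T l

theorem mu_spec (T : Multiset ℕ → Multiset ℕ) (hT : ∀ s : Multiset ℕ, (∀ d ∈ s, 1 ≤ d) →
    (∀ d ∈ T s, 1 ≤ d) ∧ (T s).sum = s.sum ∧ (T s).card = s.sup ∧ (T s).sup = s.card ∧
      T (T s) = s) (l : Multiset ℕ) (hl : ∀ d ∈ l, 1 ≤ d) :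
    (∀ d ∈ mu T l, 1 ≤ d) ∧ 2 ≤ (mu T l).count (mu T l).sup ∧
    ((l.sup ≤ 1 ∧ mu T l = l + Multiset.replicate 3 1 ∧ (mu T l).sup = 1 ∧ (mu T l).sum = l.sum + 3) ∨
     (2 ≤ l.sup ∧ l.sup ≤ l.card ∧ mu T l = l.sup ::ₘ l ∧ (mu T l).sup = l.sup ∧
        (mu T l).sum = l.sum + l.sup) ∨
     (2 ≤ l.sup ∧ l.card < l.sup ∧ mu T l = (T l).sup ::ₘ 1 ::ₘ T l ∧ (mu T l).sup = (T l).sup ∧
        (mu T l).sum = l.sum + (T l).sup + 1)) := by
  by_cases h1 : l.sup ≤ 1
  · have e : mu T l = l + Multiset.replicate 3 1 := if_pos h1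
    have hs : (mu T l).sup = 1 := by
      apply le_antisymm
      · rw [e, Multiset.sup_le]
        intro x hx
        rw [Multiset.mem_add] at hx
        rcases hx with hx | hx
        · exact (Multiset.le_sup hx).trans h1
        · exact (Multiset.eq_of_mem_replicate hx).le
      · apply Multiset.le_sup
        rw [e, Multiset.mem_add]
        right
        simp
    refine ⟨?_, ?_, Or.inl ⟨h1, e, hs, ?_⟩⟩
    · intro d hd
      rw [e, Multiset.mem_add] at hd
      rcases hd with hd | hd
      · exact hl d hd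
      · exact (Multiset.eq_of_mem_replicate hd).ge
    · rw [hs, e, Multiset.count_add, Multiset.count_replicate_self]
      omega
    · rw [e, Multiset.sum_add, Multiset.sum_replicate]
      rfl
  · have hl0 : l ≠ 0 := by
      rintro rfl
      simp at h1
    have hmem := sup_mem l hl0
    by_cases h2 : l.sup ≤ l.card
    · have e : mu T l = l.sup ::ₘ l := by
        rw [mu, if_neg h1, if_pos h2]
      have hs : (mu T l).sup = l.sup := by
        rw [e, Multiset.sup_cons]
        exact sup_idem _
      refine ⟨?_, ?_, Or.inr (Or.inl ⟨by omega, h2, e, hs, ?_⟩)⟩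
      · intro d hd
        rw [e, Multiset.mem_cons] at hd
        rcases hd with hd | hd
        · omega
        · exact hl d hd
      · rw [hs, e, Multiset.count_cons_self]
        have := Multiset.count_pos.2 hmem
        omega
      · rw [e, Multiset.sum_cons, add_comm]
    · obtain ⟨t1, t2, t3, t4, t5⟩ := hT l hl
      have e : mu T l = (T l).sup ::ₘ 1 ::ₘ T l := by
        rw [mu, if_neg h1, if_neg h2]
      have hT0 : T l ≠ 0 := by
        intro h
        rw [h, Multiset.card_zero] at t3
        omega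
      have hTm := sup_mem (T l) hT0
      have hT1 := t1 _ hTm
      have hs : (mu T l).sup = (T l).sup := by
        rw [e, Multiset.sup_cons, Multiset.sup_cons, sup_eq_right.2 hT1]
        exact sup_idem _
      refine ⟨?_, ?_, Or.inr (Or.inr ⟨by omega, by omega, e, hs, ?_⟩)⟩
      · intro d hd
        rw [e, Multiset.mem_cons, Multiset.mem_cons] at hd
        rcases hd with hd | hd | hd
        · omega
        · omega
        · exact t1 d hd
      · rw [hs, e, Multiset.count_cons_self]
        have h3 : 0 < (1 ::ₘ T l).count (T l).sup :=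
          Multiset.count_pos.2 (Multiset.mem_cons_of_mem hTm)
        omega
      · rw [e, Multiset.sum_cons, Multiset.sum_cons, t2]
        ring

theorem emb_sup (n M : ℕ) (m : Multiset ℕ) (hm : m ≠ 0) : (emb n M m).sup = m.sup + 1 := by
  apply le_antisymm
  · rw [emb, Multiset.sup_le]
    intro x hx
    rw [Multiset.mem_add, Multiset.mem_add] at hx
    rcases hx with (hx | hx) | hx
    · rw [Multiset.mem_map] at hx
      obtain ⟨y, hy, rfl⟩ := hx
      have := Multiset.le_sup hy
      omega
    · rw [Multiset.eq_of_mem_replicate hx]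
      omega
    · rw [Multiset.eq_of_mem_replicate hx]
      omega
  · apply Multiset.le_sup
    rw [emb, Multiset.mem_add, Multiset.mem_add]
    exact Or.inl (Or.inl (Multiset.mem_map_of_mem _ (sup_mem m hm)))

theorem emb_count (n M : ℕ) (m : Multiset ℕ) : m.count m.sup ≤ (emb n M m).count (m.sup + 1) := by
  rw [emb, Multiset.count_add, Multiset.count_add]
  have : (m.map (· + 1)).count (m.sup + 1) = m.count m.sup :=
    Multiset.count_map_eq_count' (fun x : ℕ => x + 1) m (fun a b h => by simpa using h) m.sup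
  omega

end Inj

open Inj

theorem p_INJ (hEMB : S_EMB) (hLAM : S_LAM) (hCONJ : S_CONJ) (hCL2 : S_CL2) : S_INJ := by
  classical
  intro n M hM
  obtain ⟨T, hT⟩ := hCONJ
  let φ : Multiset ℕ → Multiset ℕ := fun s => if 0 ∈ s then phA s else emb n M (mu T (lam s))
  have hA : ∀ s, 0 ∈ s → φ s = phA s := fun s h => if_pos h
  have hB : ∀ s, 0 ∉ s → φ s = emb n M (mu T (lam s)) := fun s h => if_neg h
  have hcard : ∀ s ∈ GS n M, s.card = n := by
    rintro s ⟨⟨G, hG⟩, _⟩
    rw [← hG, degs]
    simp
  have hpos : ∀ s : Multiset ℕ, 0 ∉ s → ∀ d ∈ s, 1 ≤ d := by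
    intro s h d hd
    by_contra hcon
    have : d = 0 := by omega
    rw [this] at hd
    exact h hd
  have hlam : ∀ s ∈ GS n M, 0 ∉ s → (lam s).sum + n = 2 * M ∧ (∀ d ∈ lam s, 1 ≤ d) ∧
      s = (lam s).map (· + 1) + Multiset.replicate (n - (lam s).card) 1 := by
    intro s hs h0
    obtain ⟨h1, h2, h3⟩ := hLAM.2 s (hpos s h0)
    rw [hcard s hs] at h1 h3
    refine ⟨?_, h2, h3⟩
    rw [h1]
    exact hs.2
  have hmu : ∀ s ∈ GS n M, 0 ∉ s → mu T (lam s) ≠ 0 := by
    intro s hs h0 h
    have := (mu_spec T hT (lam s) (hlam s hs h0).2.1).2.1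
    rw [h] at this
    simp at this
  have hAB : ∀ s ∈ GS n M, ∀ s' ∈ GS n M, 0 ∈ s → 0 ∉ s' → φ s ≠ φ s' := by
    intro s hs s' hs' h0 h0' h
    rw [hA s h0, hB s' h0'] at h
    obtain ⟨m1, m2, -⟩ := mu_spec T hT (lam s') (hlam s' hs' h0').2.1
    have hm0 := hmu s' hs' h0'
    have h1 := phA_sup s
    rw [h, emb_sup n M _ hm0] at h1
    have h2 : s.sup = (mu T (lam s')).sup := by omega
    have h3 := m1 _ (sup_mem _ hm0)
    have h4 := phA_count s (by omega)
    rw [h, h2] at h4
    have h5 := emb_count n M (mu T (lam s'))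
    omega
  have hfin : (GS n (M + 1)).Finite := by
    apply (Set.finite_range (degs : SimpleGraph (Fin n) → Multiset ℕ)).subset
    rintro s ⟨⟨G, hG⟩, _⟩
    exact ⟨G, hG⟩
  refine Set.ncard_le_ncard_of_injOn φ ?_ ?_ hfin
  · intro s hs
    by_cases h0 : 0 ∈ s
    · rw [hA s h0]
      have hc := hcard s hs
      have e := specA s h0 (by omega)
      obtain ⟨hG, hsum⟩ := hs
      refine ⟨?_, ?_⟩
      · rw [e] at hG
        have := hCL2 n s.sup ((s.erase s.sup).erase 0) (by rw [← e]; rw [← e] at hG; exact hG)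
        exact this
      · have h1 : s.sum = s.sup + (0 + ((s.erase s.sup).erase 0).sum) := by
          conv_lhs => rw [e]
          rw [Multiset.sum_cons, Multiset.sum_cons]
        rw [phA, Multiset.sum_cons, Multiset.sum_cons]
        omega
    · rw [hB s h0]
      obtain ⟨l1, l2, l3⟩ := hlam s hs h0
      obtain ⟨m1, m2, hcase⟩ := mu_spec T hT (lam s) l2
      rcases hcase with ⟨c1, c2, -, -⟩ | ⟨c1, c2, c3, -, -⟩ | ⟨c1, c2, c3, -, -⟩
      · rw [c2]
        exact (hEMB n M (lam s).sum (n - M) (lam s) (by omega) (by omega) (by omega) l2 rfl).1 c1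
      · rw [c3]
        exact (hEMB n M (lam s).sum (n - M) (lam s) (by omega) (by omega) (by omega) l2 rfl).2.1 c1 c2
      · rw [c3]
        obtain ⟨t1, t2, t3, t4, t5⟩ := hT (lam s) l2
        have hT0 : T (lam s) ≠ 0 := by
          intro h
          rw [h, Multiset.card_zero] at t3
          omega
        have hT1 := t1 _ (sup_mem _ hT0)
        exact (hEMB n M (lam s).sum (n - M) (T (lam s)) (by omega) (by omega) (by omega) t1 t2).2.2
          hT1 (by omega)
  · intro s hs s' hs' h
    by_cases h0 : 0 ∈ s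
    · by_cases h0' : 0 ∈ s'
      · rw [hA s h0, hA s' h0'] at h
        have hc := hcard s hs
        have hc' := hcard s' hs'
        have e := specA s h0 (by omega)
        have e' := specA s' h0' (by omega)
        have h1 := phA_sup s
        have h2 := phA_sup s'
        rw [h, h2] at h1
        have h3 : s.sup = s'.sup := by omega
        rw [phA, phA, h3, Multiset.cons_inj_right, Multiset.cons_inj_right] at h
        rw [e, e', h3, h]
      · exact absurd h (hAB s hs s' hs' h0 h0')
    · by_cases h0' : 0 ∈ s'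
      · exact absurd h.symm (hAB s' hs' s hs h0' h0)
      · rw [hB s h0, hB s' h0'] at h
        obtain ⟨l1, l2, l3⟩ := hlam s hs h0
        obtain ⟨l1', l2', l3'⟩ := hlam s' hs' h0'
        obtain ⟨m1, m2, hcase⟩ := mu_spec T hT (lam s) l2
        obtain ⟨m1', m2', hcase'⟩ := mu_spec T hT (lam s') l2'
        have hm : mu T (lam s) = mu T (lam s') := by
          rw [← hLAM.1 n M _ m1, ← hLAM.1 n M _ m1', h]
        have hl : lam s = lam s' := by
          rw [← hm] at hcase'
          rcases hcase with ⟨c1, c2, c3, c4⟩ | ⟨c1, c2, c3, c4, c5⟩ | ⟨c1, c2, c3, c4, c5⟩ <;>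
          rcases hcase' with ⟨d1, d2, d3, d4⟩ | ⟨d1, d2, d3, d4, d5⟩ | ⟨d1, d2, d3, d4, d5⟩
          · rw [c2] at d2
            exact add_right_cancel d2
          · omega
          · omega
          · omega
          · rw [c3] at d3
            rw [c4] at d4
            rw [d4, Multiset.cons_inj_right] at d3
            exact d3
          · omega
          · omega
          · omega
          · rw [c3] at d3
            rw [c4] at d4
            rw [d4, Multiset.cons_inj_right, Multiset.cons_inj_right] at d3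
            rw [← (hT _ l2).2.2.2.2, ← (hT _ l2').2.2.2.2, d3]
        rw [l3, l3', hl]

end Pool.Agent.Work.MP_0eb8a1_h84
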