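import Pool.Agent.Work.MP_0eb8a1_h84.Interface

namespace Pool.Agent.Work.MP_0eb8a1_h84

theorem p_LAM : S_LAM := by
  constructor
  · intro n M mu hmu
    unfold lam emb
    rw [Multiset.map_add, Multiset.map_add, Multiset.filter_add, Multiset.filter_add, Multiset.map_replicate,
      Multiset.map_replicate, Multiset.map_map]
    have h1 : Multiset.map ((fun x => x - 1) ∘ fun x => x + 1) mu = mu := by
      conv_rhs => rw [← Multiset.map_id mu]
      apply Multiset.map_congr rfl
      intro x _
      simp
    have h2 : Multiset.filter (fun x => 0 < x) mu = mu := Multiset.filter_eq_self.2 (fun a ha => hmu a ha)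
    rw [h1, h2, Multiset.filter_eq_nil.2, Multiset.filter_eq_nil.2]
    · simp
    · intro a ha
      rw [Multiset.eq_of_mem_replicate ha]
      simp
    · intro a ha
      rw [Multiset.eq_of_mem_replicate ha]
      simp
  · intro s
    induction s using Multiset.induction_on with
    | empty => intro _; simp [lam]
    | cons a s ih =>
      intro h
      obtain ⟨h1, h2, h3⟩ := ih (fun d hd => h d (Multiset.mem_cons_of_mem hd))
      have ha : 1 ≤ a := h a (Multiset.mem_cons_self a s)
      have hcard : (lam s).card ≤ s.card := by
        unfold lam
        refine (Multiset.card_le_card (Multiset.filter_le _ _)).trans ?_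
        rw [Multiset.card_map]
      by_cases ha1 : a = 1
      · have hl : lam (a ::ₘ s) = lam s := by
          unfold lam
          rw [Multiset.map_cons, Multiset.filter_cons_of_neg _ (by omega)]
        rw [hl]
        refine ⟨?_, h2, ?_⟩
        · rw [Multiset.card_cons, Multiset.sum_cons]
          omega
        · rw [Multiset.card_cons]
          have e1 : s.card + 1 - (lam s).card = (s.card - (lam s).card) + 1 := by omega
          rw [e1, Multiset.replicate_succ, Multiset.add_cons, ← h3, ha1]
      · have hl : lam (a ::ₘ s) = (a - 1) ::ₘ lam s := by
          unfold lam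
          rw [Multiset.map_cons, Multiset.filter_cons_of_pos _ (by omega)]
        rw [hl]
        refine ⟨?_, ?_, ?_⟩
        · rw [Multiset.card_cons, Multiset.sum_cons, Multiset.sum_cons]
          omega
        · intro d hd
          rcases Multiset.mem_cons.1 hd with rfl | hd
          · omega
          · exact h2 d hd
        · rw [Multiset.card_cons, Multiset.card_cons, Multiset.map_cons, Multiset.cons_add]
          have e1 : s.card + 1 - ((lam s).card + 1) = s.card - (lam s).card := by omega
          have e2 : a - 1 + 1 = a := by omega
          rw [e1, ← h3, e2]

end Pool.Agent.Work.MP_0eb8a1_h84
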