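import Pool.Agent.Work.MP_0eb8a1_h84.Interface2

/-! # Block ONE: two disjoint edges and isolated vertices (typed by helper98) -/

namespace Pool.Agent.Work.MP_0eb8a1_h84

theorem ONE_aux (hCL1 : S_CL1) (hFL : S_FL) (k : ℕ) :
    Graphical (4 + k) (Multiset.replicate 4 1 + Multiset.replicate k 0) := by
  induction k with
  | zero =>
    have h1 := hFL (Multiset.replicate 4 1) (by
      intro d hd
      rw [Multiset.eq_of_mem_replicate hd]) (by
      rw [Multiset.sum_replicate]
      decide) (by
      rw [Multiset.sum_replicate, Multiset.card_replicate]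
      decide)
    rw [Multiset.card_replicate] at h1
    simpa using h1
  | succ k ih =>
    have h1 := hCL1 _ _ ih
    have h2 : (0 : ℕ) ::ₘ (Multiset.replicate 4 1 + Multiset.replicate k 0) =
        Multiset.replicate 4 1 + Multiset.replicate (k + 1) 0 := by
      rw [Multiset.replicate_succ 0 k, Multiset.add_cons]
    rw [h2] at h1
    exact h1

theorem p_ONE (hCL1 : S_CL1) (hFL : S_FL) : S_ONE := by
  intro n hn
  obtain ⟨k, rfl⟩ := Nat.exists_eq_add_of_le hn
  refine ⟨?_, ?_⟩
  · have h := ONE_aux hCL1 hFL k
    rw [Nat.add_sub_cancel_left]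
    exact h
  · rw [Multiset.sum_add, Multiset.sum_replicate, Multiset.sum_replicate]
    simp

end Pool.Agent.Work.MP_0eb8a1_h84
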