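import Pool.Agent.Work.MP_0eb8a1_h84.Interface2

/-!
# Block PHI: the injection, with the properties of its image
-/

set_option autoImplicit false

namespace Pool.Agent.Work.MP_0eb8a1_h84

namespace Phi11

open Multiset

theorem sup_mem {s : Multiset ℕ} (h : s ≠ 0) : s.sup ∈ s := by
  induction s using Multiset.induction_on with
  | empty => exact absurd rfl h
  | cons a s ih =>
    rw [Multiset.sup_cons]
    rcases Decidable.em (s = 0) with h0 | h0
    · subst h0
      simp
    · rcases le_total a s.sup with h1 | h1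
      · rw [sup_eq_right.2 h1]
        exact Multiset.mem_cons_of_mem (ih h0)
      · rw [sup_eq_left.2 h1]
        exact Multiset.mem_cons_self a s

theorem le_sup' {s : Multiset ℕ} {d : ℕ} (h : d ∈ s) : d ≤ s.sup := Multiset.le_sup h

theorem card_of_graphical {n : ℕ} {s : Multiset ℕ} (h : Graphical n s) : s.card = n := by
  obtain ⟨G, rfl⟩ := h
  unfold degs
  rw [Multiset.card_map]
  simp

/-- the first kind -/
theorem first_eq {n : ℕ} (hn : 3 ≤ n) {s : Multiset ℕ} (hc : s.card = n) (h0 : 0 ∈ s) :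
    s = s.sup ::ₘ 0 ::ₘ ((s.erase s.sup).erase 0) := by
  have hs : s ≠ 0 := by
    rintro rfl
    simp at h0
  have h1 : 0 ∈ s.erase s.sup := by
    rcases Nat.eq_zero_or_pos s.sup with h | h
    · rw [h]
      have h2 : s = replicate n 0 := by
        rw [Multiset.eq_replicate]
        refine ⟨hc, fun b hb => ?_⟩
        have := le_sup' hb
        omega
      rw [h2]
      obtain ⟨k, rfl⟩ : ∃ k, n = k + 1 + 1 := ⟨n - 2, by omega⟩
      rw [Multiset.replicate_succ, Multiset.erase_cons_head, Multiset.replicate_succ]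
      exact Multiset.mem_cons_self _ _
    · exact (Multiset.mem_erase_of_ne (by omega)).2 h0
  rw [Multiset.cons_erase h1, Multiset.cons_erase (sup_mem hs)]

def P1 (s : Multiset ℕ) : Multiset ℕ := (s.sup + 1) ::ₘ 1 ::ₘ ((s.erase s.sup).erase 0)

def Q1 (E : Multiset ℕ) : Multiset ℕ := (E.sup - 1) ::ₘ 0 ::ₘ ((E.erase E.sup).erase 1)

theorem rest_le {s : Multiset ℕ} {d : ℕ} (h : d ∈ (s.erase s.sup).erase 0) : d ≤ s.sup :=
  le_sup' (Multiset.mem_of_mem_erase (Multiset.mem_of_mem_erase h))

theorem P1_sup (s : Multiset ℕ) : (P1 s).sup = s.sup + 1 := by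
  unfold P1
  apply le_antisymm
  · rw [Multiset.sup_le]
    intro b hb
    rw [Multiset.mem_cons, Multiset.mem_cons] at hb
    rcases hb with rfl | rfl | hb
    · exact le_rfl
    · omega
    · have := rest_le hb
      omega
  · exact Multiset.le_sup (Multiset.mem_cons_self _ _)

theorem Q1_P1 {n : ℕ} (hn : 3 ≤ n) {s : Multiset ℕ} (hc : s.card = n) (h0 : 0 ∈ s) : Q1 (P1 s) = s := by
  conv_rhs => rw [first_eq hn hc h0]
  unfold Q1
  rw [P1_sup]
  unfold P1
  rw [Multiset.erase_cons_head, Multiset.erase_cons_head, Nat.add_sub_cancel]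

theorem P1_sig (s : Multiset ℕ) : (P1 s).sup = 1 ∨ (P1 s).count (P1 s).sup = 1 := by
  rw [P1_sup]
  rcases Nat.eq_zero_or_pos s.sup with h | h
  · left
    omega
  · right
    unfold P1
    rw [Multiset.count_cons_self, Multiset.count_cons_of_ne (by omega), Multiset.count_eq_zero_of_notMem]
    intro h1
    have := rest_le h1
    omega

theorem emb_sup_count (n M : ℕ) (mu : Multiset ℕ) (h1 : 1 ≤ mu.sup) (h2 : 2 ≤ mu.count mu.sup) :
    (emb n M mu).sup = mu.sup + 1 ∧ 2 ≤ (emb n M mu).count (emb n M mu).sup := by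
  have hmu : mu ≠ 0 := by
    rintro rfl
    simp at h1
  have h3 : (emb n M mu).sup = mu.sup + 1 := by
    unfold emb
    apply le_antisymm
    · rw [Multiset.sup_le]
      intro b hb
      rw [Multiset.mem_add, Multiset.mem_add] at hb
      rcases hb with (hb | hb) | hb
      · rw [Multiset.mem_map] at hb
        obtain ⟨a, ha, rfl⟩ := hb
        have := le_sup' ha
        omega
      · have := Multiset.eq_of_mem_replicate hb
        omega
      · have := Multiset.eq_of_mem_replicate hb
        omega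
    · apply Multiset.le_sup
      rw [Multiset.mem_add, Multiset.mem_add]
      exact Or.inl (Or.inl (Multiset.mem_map_of_mem _ (sup_mem hmu)))
  refine ⟨h3, ?_⟩
  rw [h3]
  unfold emb
  rw [Multiset.count_add, Multiset.count_add,
    Multiset.count_map_eq_count' (· + 1) mu (fun a b h => by simpa using h) mu.sup]
  omega

/-- the partition `mu` of a partition `l` -/
noncomputable def mu (T : Multiset ℕ → Multiset ℕ) (l : Multiset ℕ) : Multiset ℕ :=
  if l.sup ≤ 1 then l + replicate 3 1 else if l.sup ≤ l.card then l.sup ::ₘ l else (T l).sup ::ₘ 1 ::ₘ T l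

noncomputable def nu (T : Multiset ℕ → Multiset ℕ) (r : ℕ) (m : Multiset ℕ) : Multiset ℕ :=
  if m.sum - m.sup = r then m.erase m.sup else
    if m.sum - m.sup = r + 1 then T ((m.erase m.sup).erase 1) else replicate r 1

theorem card_pos_of_sup {l : Multiset ℕ} (h : 1 ≤ l.sup) : 1 ≤ l.card := by
  rw [Nat.one_le_iff_ne_zero, Ne, Multiset.card_eq_zero]
  rintro rfl
  simp at h

theorem card_le_sum {l : Multiset ℕ} (hl : ∀ d ∈ l, 1 ≤ d) : l.card ≤ l.sum := by
  induction l using Multiset.induction_on with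
  | empty => simp
  | cons a l ih =>
    rw [Multiset.card_cons, Multiset.sum_cons]
    have h1 := hl a (Multiset.mem_cons_self a l)
    have h2 := ih fun d hd => hl d (Multiset.mem_cons_of_mem hd)
    omega

theorem sup_card_le {l : Multiset ℕ} (hl : ∀ d ∈ l, 1 ≤ d) (h : l ≠ 0) : l.sup + l.card ≤ l.sum + 1 := by
  have h1 := Multiset.cons_erase (sup_mem h)
  have h2 : (l.erase l.sup).card ≤ (l.erase l.sup).sum :=
    card_le_sum fun d hd => hl d (Multiset.mem_of_mem_erase hd)
  have h3 : l.card = (l.erase l.sup).card + 1 := by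
    conv_lhs => rw [← h1]
    rw [Multiset.card_cons]
  have h4 : l.sum = l.sup + (l.erase l.sup).sum := by
    conv_lhs => rw [← h1]
    rw [Multiset.sum_cons]
  omega

section

variable {T : Multiset ℕ → Multiset ℕ}
  (hT : ∀ s : Multiset ℕ, (∀ d ∈ s, 1 ≤ d) →
    (∀ d ∈ T s, 1 ≤ d) ∧ (T s).sum = s.sum ∧ (T s).card = s.sup ∧ (T s).sup = s.card ∧ T (T s) = s)

include hT

theorem mu_props {r : ℕ} {l : Multiset ℕ} (hl : ∀ d ∈ l, 1 ≤ d) (hr : l.sum = r) :
    (∀ d ∈ mu T l, 1 ≤ d) ∧ 1 ≤ (mu T l).sup ∧ 2 ≤ (mu T l).count (mu T l).sup ∧ nu T r (mu T l) = l ∧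
      (mu T l).sum + (mu T l).card ≤ 2 * r + 6 := by
  unfold mu
  split_ifs with h1 h2
  · have hall : ∀ d ∈ l, d = 1 := fun d hd => by
      have := hl d hd
      have := le_sup' hd
      omega
    have hrep : l = replicate l.card 1 := Multiset.eq_replicate.2 ⟨rfl, hall⟩
    have hcr : l.card = r := by
      rw [← hr]
      conv_rhs => rw [hrep]
      simp
    rw [hcr] at hrep
    have e : l + replicate 3 1 = replicate (r + 3) 1 := by
      rw [hrep, ← Multiset.replicate_add]
    have hsup : (replicate (r + 3) 1 : Multiset ℕ).sup = 1 := by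
      apply le_antisymm
      · rw [Multiset.sup_le]
        intro b hb
        exact (Multiset.eq_of_mem_replicate hb).le
      · apply Multiset.le_sup
        rw [Multiset.mem_replicate]
        exact ⟨by omega, rfl⟩
    rw [e]
    refine ⟨fun d hd => (Multiset.eq_of_mem_replicate hd).ge, by rw [hsup], ?_, ?_, ?_⟩
    · rw [hsup, Multiset.count_replicate_self]
      omega
    · unfold nu
      rw [hsup, Multiset.sum_replicate, smul_eq_mul, mul_one, if_neg (by omega), if_neg (by omega), ← hrep]
    · rw [Multiset.sum_replicate, Multiset.card_replicate, smul_eq_mul]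
      omega
  · have hne : l ≠ 0 := by
      rintro rfl
      simp at h1
    have hm := sup_mem hne
    have hsup : (l.sup ::ₘ l).sup = l.sup := by
      rw [Multiset.sup_cons, sup_idem]
    refine ⟨?_, ?_, ?_, ?_, ?_⟩
    · intro d hd
      rw [Multiset.mem_cons] at hd
      rcases hd with rfl | hd
      · omega
      · exact hl d hd
    · rw [hsup]
      omega
    · rw [hsup, Multiset.count_cons_self]
      have := Multiset.one_le_count_iff_mem.2 hm
      omega
    · unfold nu
      rw [hsup, Multiset.sum_cons, if_pos (by omega), Multiset.erase_cons_head]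
    · have := sup_card_le hl hne
      rw [Multiset.sum_cons, Multiset.card_cons]
      omega
  · obtain ⟨t1, t2, t3, t4, t5⟩ := hT l hl
    have hc : 1 ≤ l.card := card_pos_of_sup (by omega)
    have hne : T l ≠ 0 := by
      intro h
      rw [h] at t4
      simp at t4
      omega
    have hm := sup_mem hne
    have hsup : ((T l).sup ::ₘ 1 ::ₘ T l).sup = (T l).sup := by
      rw [Multiset.sup_cons, Multiset.sup_cons, sup_eq_right.2 (show 1 ≤ (T l).sup by omega), sup_idem]
    refine ⟨?_, ?_, ?_, ?_, ?_⟩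
    · intro d hd
      rw [Multiset.mem_cons, Multiset.mem_cons] at hd
      rcases hd with rfl | rfl | hd
      · omega
      · omega
      · exact t1 d hd
    · rw [hsup]
      omega
    · rw [hsup, Multiset.count_cons_self]
      have := Multiset.one_le_count_iff_mem.2 (Multiset.mem_cons_of_mem (b := 1) hm)
      omega
    · unfold nu
      rw [hsup, Multiset.sum_cons, Multiset.sum_cons, if_neg (by omega), if_pos (by omega),
        Multiset.erase_cons_head, Multiset.erase_cons_head, t5]
    · have := sup_card_le t1 hne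
      rw [Multiset.sum_cons, Multiset.card_cons, Multiset.sum_cons, Multiset.card_cons]
      omega

end

end Phi11

theorem p_PHI (hEMB : S_EMB) (hLAM : S_LAM) (hCONJ : S_CONJ) (hCL2 : S_CL2) : S_PHI := by
  classical
  intro n M hM
  obtain ⟨T, hT⟩ := hCONJ
  obtain ⟨hL1, hL2⟩ := hLAM
  have hn : 3 ≤ n := by omega
  -- facts on the second kind
  have key : ∀ s ∈ GS n M, 0 ∉ s → (∀ d ∈ lam s, 1 ≤ d) ∧ (lam s).sum = 2 * M - n ∧ n ≤ 2 * M ∧
      s = (lam s).map (· + 1) + Multiset.replicate (n - (lam s).card) 1 := by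
    rintro s ⟨hs1, hs2⟩ h0
    have hc := Phi11.card_of_graphical hs1
    have hpos : ∀ d ∈ s, 1 ≤ d := fun d hd => by
      rcases Nat.eq_zero_or_pos d with h | h
      · subst h
        exact absurd hd h0
      · exact h
    obtain ⟨h1, h2, h3⟩ := hL2 s hpos
    rw [hc] at h1 h3
    exact ⟨h2, by omega, by omega, h3⟩
  let phi : Multiset ℕ → Multiset ℕ := fun s =>
    if 0 ∈ s then Phi11.P1 s else emb n M (Phi11.mu T (lam s))
  have hphi1 : ∀ s, 0 ∈ s → phi s = Phi11.P1 s := fun s h => if_pos h
  have hphi2 : ∀ s, 0 ∉ s → phi s = emb n M (Phi11.mu T (lam s)) := fun s h => if_neg h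
  have hmix : ∀ s ∈ GS n M, ∀ s' ∈ GS n M, 0 ∈ s → 0 ∉ s' → phi s ≠ phi s' := by
    intro s _ s' hs' h0 h0' h
    rw [hphi1 s h0, hphi2 s' h0'] at h
    obtain ⟨k1, k2, -, -⟩ := key s' hs' h0'
    obtain ⟨-, m2, m3, -, -⟩ := Phi11.mu_props hT k1 k2
    obtain ⟨e1, e2⟩ := Phi11.emb_sup_count n M _ m2 m3
    rw [← h] at e1 e2
    rcases Phi11.P1_sig s with h1 | h1 <;> omega
  refine ⟨phi, ?_, ?_, ?_⟩
  · intro s hs
    rcases Decidable.em (0 ∈ s) with h0 | h0
    · rw [hphi1 s h0]
      obtain ⟨hs1, hs2⟩ := hs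
      have hc := Phi11.card_of_graphical hs1
      have he := Phi11.first_eq hn hc h0
      obtain ⟨t, ht⟩ : ∃ t, t = (s.erase s.sup).erase 0 := ⟨_, rfl⟩
      obtain ⟨a, ha⟩ : ∃ a, a = s.sup := ⟨_, rfl⟩
      unfold Phi11.P1
      rw [← ht, ← ha]
      rw [← ht, ← ha] at he
      rw [he] at hs1 hs2
      refine ⟨hCL2 n a t hs1, ?_⟩
      rw [Multiset.sum_cons, Multiset.sum_cons] at hs2 ⊢
      omega
    · rw [hphi2 s h0]
      obtain ⟨k1, k2, k3, -⟩ := key s hs h0
      unfold Phi11.mu
      split_ifs with h1 h2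
      · exact (hEMB n M (2 * M - n) (n - M) (lam s) (by omega) (by omega) (by omega) k1 k2).1 h1
      · exact (hEMB n M (2 * M - n) (n - M) (lam s) (by omega) (by omega) (by omega) k1 k2).2.1 (by omega) h2
      · obtain ⟨t1, t2, t3, t4, -⟩ := hT (lam s) k1
        have hc : 1 ≤ (lam s).card := Phi11.card_pos_of_sup (by omega)
        exact (hEMB n M (2 * M - n) (n - M) (T (lam s)) (by omega) (by omega) (by omega) t1 (by omega)).2.2
          (by omega) (by omega)
  · intro s hs s' hs' h
    rcases Decidable.em (0 ∈ s) with h0 | h0 <;> rcases Decidable.em (0 ∈ s') with h0' | h0'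
    · rw [hphi1 s h0, hphi1 s' h0'] at h
      rw [← Phi11.Q1_P1 hn (Phi11.card_of_graphical hs.1) h0, h,
        Phi11.Q1_P1 hn (Phi11.card_of_graphical hs'.1) h0']
    · exact absurd h (hmix s hs s' hs' h0 h0')
    · exact absurd h.symm (hmix s' hs' s hs h0' h0)
    · rw [hphi2 s h0, hphi2 s' h0'] at h
      obtain ⟨k1, k2, -, k4⟩ := key s hs h0
      obtain ⟨k1', k2', -, k4'⟩ := key s' hs' h0'
      obtain ⟨m1, -, -, m4, -⟩ := Phi11.mu_props hT k1 k2
      obtain ⟨m1', -, -, m4', -⟩ := Phi11.mu_props hT k1' k2'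
      have e := congrArg lam h
      rw [hL1 n M _ m1, hL1 n M _ m1'] at e
      have e2 : lam s = lam s' := by rw [← m4, ← m4', e]
      rw [k4, k4', e2]
  · intro s hs
    rcases Decidable.em (0 ∈ s) with h0 | h0
    · rw [hphi1 s h0]
      refine ⟨Multiset.mem_cons_of_mem (Multiset.mem_cons_self _ _), fun hM1 => ?_⟩
      rw [Phi11.P1_sup]
      rcases Nat.eq_zero_or_pos s.sup with h | h
      · have h1 : s.sum = 0 := by
          rw [Multiset.sum_eq_zero_iff]
          intro d hd
          have := Phi11.le_sup' hd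
          omega
        have h2 := hs.2
        omega
      · omega
    · rw [hphi2 s h0]
      obtain ⟨k1, k2, k3, -⟩ := key s hs h0
      obtain ⟨-, m2, m3, -, m5⟩ := Phi11.mu_props hT k1 k2
      obtain ⟨e1, -⟩ := Phi11.emb_sup_count n M _ m2 m3
      refine ⟨?_, fun _ => by omega⟩
      unfold emb
      rw [Multiset.mem_add, Multiset.mem_add]
      refine Or.inl (Or.inr ?_)
      rw [Multiset.mem_replicate]
      exact ⟨by omega, rfl⟩

end Pool.Agent.Work.MP_0eb8a1_h84
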