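import Pool.Agent.Work.MP_0eb8a1_h84.Interface

/-!
# Block RL: raise degrees with the help of leaves
-/

set_option autoImplicit false

namespace Pool.Agent.Work.MP_0eb8a1_h84

namespace Rl

theorem raise (h1 : S_CL1) (h2 : S_CL2) (N a : ℕ) (u : Multiset ℕ) (h : Graphical N (a ::ₘ u)) :
    ∀ k : ℕ, Graphical (N + k) ((a + k) ::ₘ (u + Multiset.replicate k 1)) := by
  intro k
  induction k with
  | zero => simpa using h
  | succ k ih =>
    have h3 := h1 _ _ ih
    rw [Multiset.cons_swap] at h3
    have h4 := h2 _ _ _ h3
    have e : (1 : ℕ) ::ₘ (u + Multiset.replicate k 1) = u + Multiset.replicate (k + 1) 1 := by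
      rw [Multiset.replicate_succ, Multiset.add_cons]
    rw [e] at h4
    exact h4

theorem sum_le {h e : Multiset ℕ} (hr : Multiset.Rel (· ≤ ·) h e) : h.sum ≤ e.sum := by
  induction hr with
  | zero => exact le_rfl
  | cons hab _ ih =>
    rw [Multiset.sum_cons, Multiset.sum_cons]
    exact Nat.add_le_add hab ih

end Rl

theorem p_RL (h1 : S_CL1) (h2 : S_CL2) : S_RL := by
  intro h e hr
  induction hr with
  | zero =>
    intro t ht
    simpa using ht
  | @cons a b as bs hab hrest ih =>
    intro t ht
    have hs : as.sum ≤ bs.sum := Rl.sum_le hrest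
    have h3 : Graphical ((a ::ₘ as).card + t.card) (a ::ₘ (as + t)) := by
      rw [← Multiset.cons_add]
      exact ht
    have h4 := Rl.raise h1 h2 _ _ _ h3 (b - a)
    have e1 : a + (b - a) = b := by
      have : a ≤ b := hab
      omega
    rw [e1] at h4
    have h5 := ih (b ::ₘ (t + Multiset.replicate (b - a) 1)) (by
      have e2 : as + b ::ₘ (t + Multiset.replicate (b - a) 1)
          = b ::ₘ (as + t + Multiset.replicate (b - a) 1) := by
        rw [Multiset.add_cons, add_assoc]
      have e3 : as.card + (b ::ₘ (t + Multiset.replicate (b - a) 1)).card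
          = (a ::ₘ as).card + t.card + (b - a) := by
        rw [Multiset.card_cons, Multiset.card_cons, Multiset.card_add, Multiset.card_replicate]
        omega
      rw [e2, e3]
      exact h4)
    have e4 : (b ::ₘ bs).sum - (a ::ₘ as).sum = (b - a) + (bs.sum - as.sum) := by
      rw [Multiset.sum_cons, Multiset.sum_cons]
      have : a ≤ b := hab
      omega
    have e5 : b ::ₘ bs + t + Multiset.replicate ((b ::ₘ bs).sum - (a ::ₘ as).sum) 1
        = bs + b ::ₘ (t + Multiset.replicate (b - a) 1)
          + Multiset.replicate (bs.sum - as.sum) 1 := by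
      rw [e4, Multiset.replicate_add, Multiset.add_cons, Multiset.cons_add, Multiset.cons_add,
        Multiset.cons_add]
      congr 1
      abel
    have e6 : (b ::ₘ bs).card + t.card + ((b ::ₘ bs).sum - (a ::ₘ as).sum)
        = bs.card + (b ::ₘ (t + Multiset.replicate (b - a) 1)).card + (bs.sum - as.sum) := by
      rw [e4, Multiset.card_cons, Multiset.card_cons, Multiset.card_add, Multiset.card_replicate]
      omega
    rw [e5, e6]
    exact h5

end Pool.Agent.Work.MP_0eb8a1_h84
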