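import Pool.Agent.Work.MP_0eb8a1_h84.Interface2

namespace Pool.Agent.Work.MP_0eb8a1_h84

theorem p_STR (hPHI : S_PHI) (hCYC : S_CYC) (hONE : S_ONE) : S_STR := by
  intro n M hM hn
  have hfin : (GS n (M + 1)).Finite := by
    apply (Set.finite_range (degs : SimpleGraph (Fin n) → Multiset ℕ)).subset
    rintro s ⟨⟨G, hG⟩, _⟩
    exact ⟨G, hG⟩
  obtain ⟨phi, hmaps, hinj, hphi⟩ := hPHI n M hn
  rw [← Set.ncard_image_of_injOn hinj]
  apply Set.ncard_lt_ncard _ hfin
  rw [Set.ssubset_iff_of_subset hmaps.image_subset]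
  by_cases h : 2 ≤ M
  · refine ⟨_, hCYC n M h (by omega), ?_⟩
    rintro ⟨s, hs, he⟩
    have h1 := (hphi s hs).1
    rw [he, Multiset.mem_add] at h1
    rcases h1 with h1 | h1
    · have := Multiset.eq_of_mem_replicate h1
      omega
    · have := Multiset.eq_of_mem_replicate h1
      omega
  · have hM1 : M = 1 := by omega
    subst hM1
    refine ⟨_, hONE n (by omega), ?_⟩
    rintro ⟨s, hs, he⟩
    have h1 := (hphi s hs).2 le_rfl
    rw [he] at h1
    have h2 : (Multiset.replicate 4 1 + Multiset.replicate (n - 4) 0).sup ≤ 1 := by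
      rw [Multiset.sup_le]
      intro b hb
      rw [Multiset.mem_add] at hb
      rcases hb with hb | hb
      · have := Multiset.eq_of_mem_replicate hb
        omega
      · have := Multiset.eq_of_mem_replicate hb
        omega
    omega

end Pool.Agent.Work.MP_0eb8a1_h84
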