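import Pool.Agent.Work.MP_0eb8a1_h84.B_CL1
import Pool.Agent.Work.MP_0eb8a1_h84.B_CL2
import Pool.Agent.Work.MP_0eb8a1_h84.B_CL4
import Pool.Agent.Work.MP_0eb8a1_h84.B_CMP
import Pool.Agent.Work.MP_0eb8a1_h84.B_CON
import Pool.Agent.Work.MP_0eb8a1_h84.B_CONJ
import Pool.Agent.Work.MP_0eb8a1_h84.B_E1
import Pool.Agent.Work.MP_0eb8a1_h84.B_E3
import Pool.Agent.Work.MP_0eb8a1_h84.B_EMB
import Pool.Agent.Work.MP_0eb8a1_h84.B_FL
import Pool.Agent.Work.MP_0eb8a1_h84.B_HUB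
import Pool.Agent.Work.MP_0eb8a1_h84.B_INJ
import Pool.Agent.Work.MP_0eb8a1_h84.B_PHI
import Pool.Agent.Work.MP_0eb8a1_h84.B_CYC
import Pool.Agent.Work.MP_0eb8a1_h84.B_ONE
import Pool.Agent.Work.MP_0eb8a1_h84.B_STR
import Pool.Agent.Work.MP_0eb8a1_h84.B_LAM
import Pool.Agent.Work.MP_0eb8a1_h84.B_RL

/-! # Assembly -/

namespace Pool.Agent.Work.MP_0eb8a1_h84

theorem all_FL : S_FL := p_FL p_CL1 p_CL2 p_CL4

theorem all_RL : S_RL := p_RL p_CL1 p_CL2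

theorem all_EMB : S_EMB :=
  p_EMB (p_E1 p_CL4 p_HUB all_FL all_RL) (p_E3 p_CL4 p_HUB all_FL all_RL) all_FL p_CL1

theorem all_CMP : S_CMP := p_CMP p_CON

theorem all_INJ : S_INJ := p_INJ all_EMB p_LAM p_CONJ p_CL2

theorem all_STR : S_STR := p_STR (p_PHI all_EMB p_LAM p_CONJ p_CL2) (p_CYC p_CL1) (p_ONE p_CL1 all_FL)

/-- The theorem. -/
theorem main_thm : ∀ n m : ℕ, m + 3 ≤ n →
    F n (n * (n - 1) - 2 * m) ≤ F n (n * (n - 1) - 2 * (m + 1)) ∧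
    (1 ≤ m → F n (n * (n - 1) - 2 * m) < F n (n * (n - 1) - 2 * (m + 1))) := fun n m h => by
  rw [all_CMP n m (by omega), all_CMP n (m + 1) (by omega)]
  exact ⟨all_INJ n m h, fun h1 => all_STR n m h1 h⟩

end Pool.Agent.Work.MP_0eb8a1_h84
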