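import Pool.Agent.Work.MP_0eb8a1_h84.Interface

/-!
# MP_0eb8a1_co: block CL1 (an isolated vertex more)
-/

namespace Pool.Agent.Work.MP_0eb8a1_h84

theorem p_CL1 : S_CL1 := by
  rintro n s ⟨G, rfl⟩
  refine ⟨G.map (Fin.succEmb n), ?_⟩
  have h0 : (G.map (Fin.succEmb n)).neighborSet 0 = ∅ := by
    ext w
    simp only [SimpleGraph.mem_neighborSet, SimpleGraph.map_adj, Set.mem_empty_iff_false, iff_false]
    rintro ⟨a, b, _, ha, _⟩
    exact Fin.succ_ne_zero a ha
  have h1 : ∀ a : Fin n, (G.map (Fin.succEmb n)).neighborSet a.succ = Fin.succ '' (G.neighborSet a) := by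
    intro a
    ext w
    simp only [SimpleGraph.mem_neighborSet, SimpleGraph.map_adj, Set.mem_image]
    constructor
    · rintro ⟨x, y, hxy, hx, hy⟩
      have hx' : x = a := Fin.succ_injective n hx
      subst hx'
      exact ⟨y, hxy, hy⟩
    · rintro ⟨y, hy, rfl⟩
      exact ⟨a, y, hy, rfl, rfl⟩
  have h2 : (Finset.univ : Finset (Fin (n + 1))).val = 0 ::ₘ (Finset.univ : Finset (Fin n)).val.map Fin.succ := by
    rw [Fin.univ_succ]
    rfl
  unfold degs
  rw [h2, Multiset.map_cons, Multiset.map_map, h0, Set.ncard_empty]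
  congr 1
  apply Multiset.map_congr rfl
  intro a _
  simp only [Function.comp]
  rw [h1, Set.ncard_image_of_injective _ (Fin.succ_injective n)]

end Pool.Agent.Work.MP_0eb8a1_h84
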