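import Pool.Agent.Work.MP_0eb8a1_h84.Interface

/-!
# Block HUB: two adjacent vertices with `a` common neighbours
-/

set_option autoImplicit false

namespace Pool.Agent.Work.MP_0eb8a1_h84

namespace Hub

/-- two adjacent vertices `0`, `1` with `a` common neighbours -/
def G (a : ℕ) : SimpleGraph (Fin (a + 2)) where
  Adj u v := u ≠ v ∧ (u.val < 2 ∨ v.val < 2)
  symm := ⟨fun _ _ h => ⟨h.1.symm, h.2.symm⟩⟩
  loopless := ⟨fun _ h => h.1 rfl⟩

theorem small (a : ℕ) (x : Fin (a + 2)) (hx : x.val < 2) : ((G a).neighborSet x).ncard = a + 1 := by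
  have h1 : (G a).neighborSet x = ((Finset.univ.erase x : Finset (Fin (a + 2))) : Set (Fin (a + 2))) := by
    ext v
    rw [SimpleGraph.mem_neighborSet, Finset.mem_coe, Finset.mem_erase]
    constructor
    · intro h
      exact ⟨h.1.symm, Finset.mem_univ _⟩
    · intro h
      exact ⟨h.1.symm, Or.inl hx⟩
  rw [h1, Set.ncard_coe_finset, Finset.card_erase_of_mem (Finset.mem_univ _), Finset.card_univ,
    Fintype.card_fin]
  rfl

theorem large (a : ℕ) (x : Fin (a + 2)) (hx : 2 ≤ x.val) : ((G a).neighborSet x).ncard = 2 := by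
  have h1 : (G a).neighborSet x = (({0, 1} : Finset (Fin (a + 2))) : Set (Fin (a + 2))) := by
    ext v
    rw [SimpleGraph.mem_neighborSet, Finset.mem_coe, Finset.mem_insert, Finset.mem_singleton]
    constructor
    · intro h
      have hv : v.val < 2 := by
        rcases h.2 with h2 | h2
        · omega
        · exact h2
      rcases (by omega : v.val = 0 ∨ v.val = 1) with h3 | h3
      · left
        exact Fin.ext h3
      · right
        exact Fin.ext h3
    · intro h
      have hv : v.val < 2 := by
        rcases h with rfl | rfl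
        · exact Nat.zero_lt_two
        · exact Nat.one_lt_two
      refine ⟨fun h' => ?_, Or.inr hv⟩
      rw [h'] at hx
      omega
  rw [h1, Set.ncard_coe_finset, Finset.card_pair]
  intro h
  have := congrArg Fin.val h
  simp at this

end Hub

/-- `HUB` -/
theorem p_HUB : S_HUB := by
  intro a
  refine ⟨Hub.G a, ?_⟩
  unfold degs
  rw [Fin.univ_val_map, List.ofFn_succ, List.ofFn_succ]
  have h0 : ((Hub.G a).neighborSet 0).ncard = a + 1 := Hub.small a 0 (by simp)
  have h1 : ((Hub.G a).neighborSet (Fin.succ 0)).ncard = a + 1 := Hub.small a _ (by simp)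
  have h2 : (fun i : Fin a => ((Hub.G a).neighborSet i.succ.succ).ncard) = fun _ => 2 := by
    funext i
    exact Hub.large a _ (by simp)
  rw [h0, h1, h2, List.ofFn_const]
  rfl

end Pool.Agent.Work.MP_0eb8a1_h84
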