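import Pool.Agent.Work.MP_0eb8a1_h84.Interface

/-!
# MP_0eb8a1_co: block INJ, second copy (helper37)
-/

namespace Pool.Agent.Work.MP_0eb8a1_h84

namespace Inj37

theorem sup_mem : ∀ s : Multiset ℕ, s ≠ 0 → s.sup ∈ s := by
  intro s
  induction s using Multiset.induction_on with
  | empty => intro h; exact absurd rfl h
  | cons a s ih =>
    intro _
    rw [Multiset.sup_cons]
    by_cases hs : s = 0
    · subst hs
      simp
    · rcases le_total a s.sup with h | h
      · rw [sup_eq_right.2 h]
        exact Multiset.mem_cons_of_mem (ih hs)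
      · rw [sup_eq_left.2 h]
        exact Multiset.mem_cons_self _ _

theorem card_degs {n : ℕ} {s : Multiset ℕ} (h : Graphical n s) : s.card = n := by
  obtain ⟨G, rfl⟩ := h
  unfold degs
  simp

theorem finite_GS (n M : ℕ) : (GS n M).Finite := by
  apply (Set.finite_range (fun G : SimpleGraph (Fin n) => degs G)).subset
  rintro s ⟨⟨G, hG⟩, _⟩
  exact ⟨G, hG⟩

/-- the rest after the removal of a largest part and a zero -/
def rest (s : Multiset ℕ) : Multiset ℕ := (s.erase s.sup).erase 0

theorem rest_spec (s : Multiset ℕ) (h0 : 0 ∈ s) (hc : 2 ≤ s.card) :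
    s = s.sup ::ₘ 0 ::ₘ rest s := by
  have hne : s ≠ 0 := by
    rintro rfl
    simp at h0
  have h1 : s.sup ∈ s := sup_mem s hne
  have h2 : 0 ∈ s.erase s.sup := by
    by_cases hs : s.sup = 0
    · have h3 : s = Multiset.replicate s.card 0 := by
        rw [Multiset.eq_replicate_card]
        intro b hb
        have := Multiset.le_sup hb
        omega
      rw [hs]
      rw [← Multiset.one_le_count_iff_mem, Multiset.count_erase_self]
      have h4 : Multiset.count 0 s = s.card := by
        conv_lhs => rw [h3]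
        simp
      omega
    · exact (Multiset.mem_erase_of_ne (Ne.symm hs)).2 h0
  unfold rest
  rw [Multiset.cons_erase h2, Multiset.cons_erase h1]

theorem rest_le (s : Multiset ℕ) : ∀ x ∈ rest s, x ≤ s.sup := by
  intro x hx
  apply Multiset.le_sup
  exact Multiset.mem_of_mem_erase (Multiset.mem_of_mem_erase hx)

/-- the image of a multiset with a zero -/
def phiA (s : Multiset ℕ) : Multiset ℕ := (s.sup + 1) ::ₘ 1 ::ₘ rest s

theorem sup_phiA (s : Multiset ℕ) : (phiA s).sup = s.sup + 1 := by
  unfold phiA
  apply le_antisymm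
  · apply Multiset.sup_le.2
    intro b hb
    rw [Multiset.mem_cons, Multiset.mem_cons] at hb
    rcases hb with rfl | rfl | hb
    · exact le_rfl
    · omega
    · have := rest_le s b hb
      omega
  · exact Multiset.le_sup (Multiset.mem_cons_self _ _)

theorem phiA_inj (s t : Multiset ℕ) (hs : 0 ∈ s) (ht : 0 ∈ t) (hcs : 2 ≤ s.card) (hct : 2 ≤ t.card)
    (h : phiA s = phiA t) : s = t := by
  have h1 : s.sup = t.sup := by
    have := congrArg Multiset.sup h
    rw [sup_phiA, sup_phiA] at this
    omega
  have h2 : rest s = rest t := by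
    unfold phiA at h
    rw [h1] at h
    exact (Multiset.cons_inj_right _).1 ((Multiset.cons_inj_right _).1 h)
  rw [rest_spec s hs hcs, rest_spec t ht hct, h1, h2]

theorem lam_phiA (s : Multiset ℕ) :
    lam (phiA s) = 0 ∨ Multiset.count (lam (phiA s)).sup (lam (phiA s)) ≤ 1 := by
  by_cases h : lam (phiA s) = 0
  · exact Or.inl h
  right
  by_cases h0 : s.sup = 0
  · exfalso
    apply h
    unfold lam
    rw [Multiset.filter_eq_nil]
    intro a ha
    rw [Multiset.mem_map] at ha
    obtain ⟨b, hb, rfl⟩ := ha
    have := Multiset.le_sup hb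
    rw [sup_phiA] at this
    omega
  · have h1 : lam (phiA s) = s.sup ::ₘ ((rest s).map (· - 1)).filter (0 < ·) := by
      unfold lam phiA
      rw [Multiset.map_cons, Multiset.map_cons, Nat.add_sub_cancel,
        Multiset.filter_cons_of_pos _ (Nat.pos_of_ne_zero h0), Multiset.filter_cons_of_neg _ (by simp)]
    obtain ⟨R, hR⟩ : ∃ R, R = ((rest s).map (· - 1)).filter (0 < ·) := ⟨_, rfl⟩
    rw [← hR] at h1
    have hlt : ∀ x ∈ R, x < s.sup := by
      intro x hx
      rw [hR, Multiset.mem_filter, Multiset.mem_map] at hx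
      obtain ⟨⟨y, hy, rfl⟩, hpos⟩ := hx
      have := rest_le s y hy
      omega
    have hsup : (lam (phiA s)).sup = s.sup := by
      rw [h1, Multiset.sup_cons, sup_eq_left]
      exact Multiset.sup_le.2 fun b hb => (hlt b hb).le
    rw [hsup, h1, Multiset.count_cons_self, Multiset.count_eq_zero.2]
    intro hm
    exact lt_irrefl _ (hlt _ hm)

end Inj37

open Inj37 in
theorem p_INJ37 (h1 : S_EMB) (h2 : S_LAM) (h3 : S_CONJ) (h4 : S_CL2) : S_INJ := by
  classical
  intro n M hM
  obtain ⟨T, hT⟩ := h3
  obtain ⟨h2a, h2b⟩ := h2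
  -- the partition mu
  obtain ⟨mu, hmu⟩ : ∃ mu : Multiset ℕ → Multiset ℕ, mu = fun l =>
      if l.sup ≤ 1 then l + Multiset.replicate 3 1 else
      if l.sup ≤ l.card then l.sup ::ₘ l else (T l).sup ::ₘ 1 ::ₘ T l := ⟨_, rfl⟩
  -- facts on B type
  have hB : ∀ s ∈ GS n M, 0 ∉ s → (∀ d ∈ lam s, 1 ≤ d) ∧ (lam s).sum + n = 2 * M ∧
      s = (lam s).map (· + 1) + Multiset.replicate (n - (lam s).card) 1 := by
    intro s hs h0
    have hpos : ∀ d ∈ s, 1 ≤ d := by
      intro d hd
      rcases Nat.eq_zero_or_pos d with rfl | h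
      · exact absurd hd h0
      · exact h
    obtain ⟨g1, g2, g3⟩ := h2b s hpos
    have hc := card_degs hs.1
    rw [hc] at g1 g3
    exact ⟨g2, by rw [g1, hs.2], g3⟩
  have hmem : ∀ l : Multiset ℕ, (∀ d ∈ l, 1 ≤ d) → l.sum + n = 2 * M →
      emb n M (mu l) ∈ GS n (M + 1) := by
    intro l hl hsum
    rw [hmu]
    simp only
    by_cases c1 : l.sup ≤ 1
    · rw [if_pos c1]
      exact (h1 n M l.sum (n - M) l (by omega) (by omega) (by omega) hl rfl).1 c1
    · rw [if_neg c1]
      by_cases c2 : l.sup ≤ l.card
      · rw [if_pos c2]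
        exact (h1 n M l.sum (n - M) l (by omega) (by omega) (by omega) hl rfl).2.1 (by omega) c2
      · rw [if_neg c2]
        obtain ⟨t1, t2, t3, t4, t5⟩ := hT l hl
        have hcard : 1 ≤ l.card := by
          rcases Nat.eq_zero_or_pos l.card with h | h
          · rw [Multiset.card_eq_zero] at h
            subst h
            simp at c1
          · exact h
        exact (h1 n M l.sum (n - M) (T l) (by omega) (by omega) (by omega) t1 t2).2.2
          (by rw [t4]; exact hcard) (by rw [t3, t4]; omega)
  have hmupos : ∀ l : Multiset ℕ, (∀ d ∈ l, 1 ≤ d) → ∀ d ∈ mu l, 1 ≤ d := by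
    intro l hl d hd
    rw [hmu] at hd
    simp only at hd
    by_cases c1 : l.sup ≤ 1
    · rw [if_pos c1, Multiset.mem_add] at hd
      rcases hd with hd | hd
      · exact hl d hd
      · rw [Multiset.eq_of_mem_replicate hd]
    · rw [if_neg c1] at hd
      by_cases c2 : l.sup ≤ l.card
      · rw [if_pos c2, Multiset.mem_cons] at hd
        rcases hd with rfl | hd
        · omega
        · exact hl d hd
      · rw [if_neg c2, Multiset.mem_cons, Multiset.mem_cons] at hd
        obtain ⟨t1, t2, t3, t4, t5⟩ := hT l hl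
        rcases hd with rfl | rfl | hd
        · rw [t4]
          rcases Nat.eq_zero_or_pos l.card with h | h
          · rw [Multiset.card_eq_zero] at h
            subst h
            simp at c1
          · exact h
        · exact le_rfl
        · exact t1 d hd
  -- sums and sups of mu
  have hsig : ∀ l : Multiset ℕ, (∀ d ∈ l, 1 ≤ d) →
      (l.sup ≤ 1 → mu l = l + Multiset.replicate 3 1 ∧ (mu l).sum = l.sum + 3 ∧ (mu l).sup = 1) ∧
      (¬ l.sup ≤ 1 → l.sup ≤ l.card → mu l = l.sup ::ₘ l ∧ (mu l).sum = l.sum + (mu l).sup ∧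
        (mu l).sup = l.sup) ∧
      (¬ l.sup ≤ 1 → ¬ l.sup ≤ l.card → mu l = (T l).sup ::ₘ 1 ::ₘ T l ∧
        (mu l).sum = l.sum + 1 + (mu l).sup ∧ (mu l).sup = (T l).sup) := by
    intro l hl
    refine ⟨fun c1 => ?_, fun c1 c2 => ?_, fun c1 c2 => ?_⟩
    · have e : mu l = l + Multiset.replicate 3 1 := by
        rw [hmu]; simp only; rw [if_pos c1]
      refine ⟨e, ?_, ?_⟩
      · rw [e, Multiset.sum_add, Multiset.sum_replicate]
        simp
      · rw [e, Multiset.sup_add]
        have : (Multiset.replicate 3 1 : Multiset ℕ).sup = 1 := by decide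
        rw [this]
        exact sup_eq_right.2 c1
    · have e : mu l = l.sup ::ₘ l := by
        rw [hmu]; simp only; rw [if_neg c1, if_pos c2]
      have e2 : (mu l).sup = l.sup := by
        rw [e, Multiset.sup_cons, sup_idem]
      refine ⟨e, ?_, e2⟩
      rw [e2, e, Multiset.sum_cons]
      omega
    · obtain ⟨t1, t2, t3, t4, t5⟩ := hT l hl
      have e : mu l = (T l).sup ::ₘ 1 ::ₘ T l := by
        rw [hmu]; simp only; rw [if_neg c1, if_neg c2]
      have hcard : 1 ≤ (T l).sup := by
        rw [t4]
        rcases Nat.eq_zero_or_pos l.card with h | h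
        · rw [Multiset.card_eq_zero] at h
          subst h
          simp at c1
        · exact h
      have e2 : (mu l).sup = (T l).sup := by
        rw [e, Multiset.sup_cons, Multiset.sup_cons]
        apply sup_eq_left.2
        exact sup_le hcard le_rfl
      refine ⟨e, ?_, e2⟩
      rw [e2, e, Multiset.sum_cons, Multiset.sum_cons, t2]
      omega
  have hcount : ∀ l : Multiset ℕ, (∀ d ∈ l, 1 ≤ d) →
      mu l ≠ 0 ∧ 2 ≤ Multiset.count (mu l).sup (mu l) := by
    intro l hl
    have key : 2 ≤ Multiset.count (mu l).sup (mu l) := by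
      by_cases c1 : l.sup ≤ 1
      · obtain ⟨e, _, e2⟩ := (hsig l hl).1 c1
        rw [e2, e, Multiset.count_add, Multiset.count_replicate_self]
        omega
      · by_cases c2 : l.sup ≤ l.card
        · obtain ⟨e, _, e2⟩ := (hsig l hl).2.1 c1 c2
          rw [e2, e, Multiset.count_cons_self]
          have hne : l ≠ 0 := by
            rintro rfl
            simp at c1
          have := Multiset.one_le_count_iff_mem.2 (sup_mem l hne)
          omega
        · obtain ⟨e, _, e2⟩ := (hsig l hl).2.2 c1 c2
          obtain ⟨t1, t2, t3, t4, t5⟩ := hT l hl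
          rw [e2, e, Multiset.count_cons_self]
          have hne : T l ≠ 0 := by
            intro h
            rw [h] at t3
            simp at t3
            omega
          have h5 := Multiset.one_le_count_iff_mem.2 (sup_mem (T l) hne)
          have h6 : Multiset.count (T l).sup (T l) ≤ Multiset.count (T l).sup (1 ::ₘ T l) :=
            Multiset.count_le_count_cons _ _ _
          omega
    refine ⟨?_, key⟩
    intro h
    rw [h] at key
    simp at key
  have hmuinj : ∀ l l' : Multiset ℕ, (∀ d ∈ l, 1 ≤ d) → (∀ d ∈ l', 1 ≤ d) → l.sum = l'.sum →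
      mu l = mu l' → l = l' := by
    intro l l' hl hl' hs he
    obtain ⟨a1, a2, a3⟩ := hsig l hl
    obtain ⟨b1, b2, b3⟩ := hsig l' hl'
    have hes : (mu l).sum = (mu l').sum := by rw [he]
    have heu : (mu l).sup = (mu l').sup := by rw [he]
    by_cases c1 : l.sup ≤ 1
    · obtain ⟨e1, e2, e3⟩ := a1 c1
      by_cases c1' : l'.sup ≤ 1
      · obtain ⟨f1, f2, f3⟩ := b1 c1'
        rw [e1, f1] at he
        exact add_right_cancel he
      · by_cases c2' : l'.sup ≤ l'.card
        · obtain ⟨f1, f2, f3⟩ := b2 c1' c2'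
          omega
        · obtain ⟨f1, f2, f3⟩ := b3 c1' c2'
          omega
    · by_cases c2 : l.sup ≤ l.card
      · obtain ⟨e1, e2, e3⟩ := a2 c1 c2
        by_cases c1' : l'.sup ≤ 1
        · obtain ⟨f1, f2, f3⟩ := b1 c1'
          omega
        · by_cases c2' : l'.sup ≤ l'.card
          · obtain ⟨f1, f2, f3⟩ := b2 c1' c2'
            have hss : l.sup = l'.sup := by omega
            rw [e1, f1, hss] at he
            exact (Multiset.cons_inj_right _).1 he
          · obtain ⟨f1, f2, f3⟩ := b3 c1' c2'
            omega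
      · obtain ⟨e1, e2, e3⟩ := a3 c1 c2
        by_cases c1' : l'.sup ≤ 1
        · obtain ⟨f1, f2, f3⟩ := b1 c1'
          omega
        · by_cases c2' : l'.sup ≤ l'.card
          · obtain ⟨f1, f2, f3⟩ := b2 c1' c2'
            omega
          · obtain ⟨f1, f2, f3⟩ := b3 c1' c2'
            have hss : (T l).sup = (T l').sup := by omega
            rw [e1, f1, hss] at he
            have hTT := (Multiset.cons_inj_right _).1 ((Multiset.cons_inj_right _).1 he)
            rw [← (hT l hl).2.2.2.2, ← (hT l' hl').2.2.2.2, hTT]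
  have hn2 : 2 ≤ n := by omega
  refine Set.ncard_le_ncard_of_injOn (fun s => if 0 ∈ s then phiA s else emb n M (mu (lam s)))
    ?_ ?_ (finite_GS n (M + 1))
  · intro s hs
    show (if 0 ∈ s then phiA s else emb n M (mu (lam s))) ∈ GS n (M + 1)
    by_cases h0 : 0 ∈ s
    · rw [if_pos h0]
      have hc := card_degs hs.1
      have hsp := rest_spec s h0 (by omega)
      constructor
      · apply h4
        rw [← hsp]
        exact hs.1
      · have e := hs.2
        rw [hsp, Multiset.sum_cons, Multiset.sum_cons] at e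
        unfold phiA
        rw [Multiset.sum_cons, Multiset.sum_cons]
        have e3 : (s.sup ::ₘ 0 ::ₘ rest s).sup = s.sup := by rw [← hsp]
        omega
    · rw [if_neg h0]
      obtain ⟨g1, g2, _⟩ := hB s hs h0
      exact hmem (lam s) g1 g2
  · intro s hs t ht hst
    simp only at hst
    have hcs := card_degs hs.1
    have hct := card_degs ht.1
    by_cases h0 : 0 ∈ s
    · by_cases h0' : 0 ∈ t
      · rw [if_pos h0, if_pos h0'] at hst
        exact phiA_inj s t h0 h0' (by omega) (by omega) hst
      · rw [if_pos h0, if_neg h0'] at hst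
        exfalso
        obtain ⟨g1, _, _⟩ := hB t ht h0'
        have hk := lam_phiA s
        rw [hst, h2a n M (mu (lam t)) (hmupos (lam t) g1)] at hk
        obtain ⟨k1, k2⟩ := hcount (lam t) g1
        rcases hk with hk | hk
        · exact k1 hk
        · omega
    · by_cases h0' : 0 ∈ t
      · rw [if_neg h0, if_pos h0'] at hst
        exfalso
        obtain ⟨g1, _, _⟩ := hB s hs h0
        have hk := lam_phiA t
        rw [← hst, h2a n M (mu (lam s)) (hmupos (lam s) g1)] at hk
        obtain ⟨k1, k2⟩ := hcount (lam s) g1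
        rcases hk with hk | hk
        · exact k1 hk
        · omega
      · rw [if_neg h0, if_neg h0'] at hst
        obtain ⟨g1, g2, g3⟩ := hB s hs h0
        obtain ⟨g1', g2', g3'⟩ := hB t ht h0'
        have hk := congrArg lam hst
        rw [h2a n M _ (hmupos (lam s) g1), h2a n M _ (hmupos (lam t) g1')] at hk
        have hl := hmuinj (lam s) (lam t) g1 g1' (by omega) hk
        rw [g3, g3', hl]

end Pool.Agent.Work.MP_0eb8a1_h84
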