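import Pool.Agent.Work.MP_0eb8a1_h84.Interface

namespace Pool.Agent.Work.MP_0eb8a1_h84

theorem p_MAIN (h1 : S_CMP) (h2 : S_INJ) : S_MAIN := fun n m h => by
  rw [h1 n m (by omega), h1 n (m + 1) (by omega)]
  exact h2 n m h

end Pool.Agent.Work.MP_0eb8a1_h84
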