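import Pool.Agent.Work.MP_0eb8a1_h84.Interface2

set_option autoImplicit false

namespace Pool.Agent.Work.MP_0eb8a1_h84

namespace PhiB

open Multiset

lemma sup_mem (s : Multiset ℕ) (h : s ≠ 0) : s.sup ∈ s := by
  induction s using Multiset.induction_on with
  | empty => exact absurd rfl h
  | cons a t ih =>
    rw [Multiset.sup_cons]
    by_cases ht : t = 0
    · subst ht; simp
    · rcases le_total a t.sup with h1 | h1
      · rw [sup_eq_right.2 h1]; exact Multiset.mem_cons_of_mem (ih ht)
      · rw [sup_eq_left.2 h1]; exact Multiset.mem_cons_self _ _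

lemma sup_eq' {s : Multiset ℕ} {a : ℕ} (h : a ∈ s) (h1 : ∀ x ∈ s, x ≤ a) : s.sup = a :=
  le_antisymm (Multiset.sup_le.2 h1) (Multiset.le_sup h)

lemma key1 (s : Multiset ℕ) (h0 : 0 ∈ s) (hc : 2 ≤ card s) :
    s.sup ::ₘ 0 ::ₘ ((s.erase s.sup).erase 0) = s := by
  have hs : s ≠ 0 := by rintro rfl; simp at h0
  have hm := sup_mem s hs
  have h1 : (0 : ℕ) ∈ s.erase s.sup := by
    by_cases h : s.sup = 0
    · have h2 : 0 < card (s.erase s.sup) := by
        rw [card_erase_of_mem hm, Nat.pred_eq_sub_one]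
        omega
      obtain ⟨x, hx⟩ := card_pos_iff_exists_mem.1 h2
      have h3 : x ≤ s.sup := le_sup (mem_of_mem_erase hx)
      have h4 : x = 0 := by omega
      rwa [h4] at hx
    · exact (mem_erase_of_ne (Ne.symm h)).2 h0
  rw [cons_erase h1, cons_erase hm]

/-- first kind -/
def f1 (s : Multiset ℕ) : Multiset ℕ := (s.sup + 1) ::ₘ 1 ::ₘ ((s.erase s.sup).erase 0)

lemma f1_le (s : Multiset ℕ) : ∀ x ∈ (s.erase s.sup).erase 0, x ≤ s.sup := fun _ hx =>
  le_sup (mem_of_mem_erase (mem_of_mem_erase hx))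

lemma f1_inj {s s' : Multiset ℕ} (h0 : 0 ∈ s) (hc : 2 ≤ card s) (h0' : 0 ∈ s') (hc' : 2 ≤ card s')
    (h : f1 s = f1 s') : s = s' := by
  have hsup : ∀ s : Multiset ℕ, (f1 s).sup = s.sup + 1 := by
    intro s
    apply sup_eq' (mem_cons_self _ _)
    intro x hx
    unfold f1 at hx
    rw [mem_cons, mem_cons] at hx
    rcases hx with rfl | rfl | hx
    · exact le_rfl
    · omega
    · have := f1_le s x hx
      omega
  have e1 : s.sup = s'.sup := by
    have h1 := hsup s
    have h2 := hsup s'
    rw [h] at h1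
    omega
  have e2 : (s.erase s.sup).erase 0 = (s'.erase s'.sup).erase 0 := by
    obtain ⟨A, hA⟩ : ∃ A, A = (s.erase s.sup).erase 0 := ⟨_, rfl⟩
    obtain ⟨B, hB⟩ : ∃ B, B = (s'.erase s'.sup).erase 0 := ⟨_, rfl⟩
    have h3 : (s.sup + 1) ::ₘ 1 ::ₘ A = (s'.sup + 1) ::ₘ 1 ::ₘ B := by
      rw [hA, hB]
      exact h
    rw [e1] at h3
    rw [← hA, ← hB]
    exact (cons_inj_right _).1 ((cons_inj_right _).1 h3)
  calc s = s.sup ::ₘ 0 ::ₘ ((s.erase s.sup).erase 0) := (key1 s h0 hc).symm
    _ = s'.sup ::ₘ 0 ::ₘ ((s'.erase s'.sup).erase 0) := by rw [e2, e1]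
    _ = s' := key1 s' h0' hc'

/-- the partition for the second kind -/
noncomputable def mu (T : Multiset ℕ → Multiset ℕ) (l : Multiset ℕ) : Multiset ℕ :=
  if l.sup ≤ 1 then l + replicate 3 1 else if l.sup ≤ card l then l.sup ::ₘ l
  else (T l).sup ::ₘ 1 ::ₘ T l

/-- the property of conjugation -/
def IsT (T : Multiset ℕ → Multiset ℕ) : Prop := ∀ s : Multiset ℕ, (∀ d ∈ s, 1 ≤ d) →
  (∀ d ∈ T s, 1 ≤ d) ∧ (T s).sum = s.sum ∧ (T s).card = s.sup ∧ (T s).sup = s.card ∧
    T (T s) = s

lemma mu_spec (T : Multiset ℕ → Multiset ℕ) (hT : IsT T) (l : Multiset ℕ) (hl : ∀ d ∈ l, 1 ≤ d) :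
    (∀ d ∈ mu T l, 1 ≤ d) ∧ ∃ b, 1 ≤ b ∧ 2 ≤ (mu T l).count b ∧ ∀ x ∈ mu T l, x ≤ b := by
  unfold mu
  obtain ⟨t1, t2, t3, t4, t5⟩ := hT l hl
  split_ifs with h1 h2
  · refine ⟨?_, 1, le_rfl, ?_, ?_⟩
    · intro d hd
      rw [mem_add] at hd
      rcases hd with hd | hd
      · exact hl d hd
      · rw [eq_of_mem_replicate hd]
    · rw [count_add, count_replicate_self]
      omega
    · intro x hx
      rw [mem_add] at hx
      rcases hx with hx | hx
      · exact (le_sup hx).trans h1
      · rw [eq_of_mem_replicate hx]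
  · have hl0 : l ≠ 0 := by
      rintro rfl
      simp at h1
    have hm := sup_mem l hl0
    refine ⟨?_, l.sup, by omega, ?_, ?_⟩
    · intro d hd
      rw [mem_cons] at hd
      rcases hd with rfl | hd
      · omega
      · exact hl d hd
    · rw [count_cons_self]
      have := count_pos.2 hm
      omega
    · intro x hx
      rw [mem_cons] at hx
      rcases hx with rfl | hx
      · exact le_rfl
      · exact le_sup hx
  · have hl0 : l ≠ 0 := by
      rintro rfl
      simp at h1
    have hc : 0 < card l := card_pos.2 hl0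
    have hT0 : T l ≠ 0 := by
      intro h
      rw [h] at t3
      simp at t3
      omega
    have hm := sup_mem (T l) hT0
    refine ⟨?_, (T l).sup, by omega, ?_, ?_⟩
    · intro d hd
      rw [mem_cons, mem_cons] at hd
      rcases hd with rfl | rfl | hd
      · omega
      · exact le_rfl
      · exact t1 d hd
    · rw [count_cons_self]
      have h5 := count_pos.2 hm
      have h6 := count_le_count_cons (T l).sup 1 (T l)
      omega
    · intro x hx
      rw [mem_cons, mem_cons] at hx
      rcases hx with rfl | rfl | hx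
      · exact le_rfl
      · omega
      · exact le_sup hx

lemma mu_cases (T : Multiset ℕ → Multiset ℕ) (hT : IsT T) (l : Multiset ℕ) (hl : ∀ d ∈ l, 1 ≤ d) :
    (l = (mu T l) - replicate 3 1 ∧ (mu T l).sum = l.sum + 2 + (mu T l).sup) ∨
    (l = (mu T l).erase (mu T l).sup ∧ (mu T l).sum = l.sum + (mu T l).sup) ∨
    (l = T (((mu T l).erase (mu T l).sup).erase 1) ∧
      (mu T l).sum = l.sum + 1 + (mu T l).sup) := by
  unfold mu
  obtain ⟨t1, t2, t3, t4, t5⟩ := hT l hl
  split_ifs with h1 h2
  · left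
    have h3 : (l + replicate 3 1).sup = 1 := by
      apply sup_eq'
      · rw [mem_add]
        right
        rw [mem_replicate]
        simp
      · intro x hx
        rw [mem_add] at hx
        rcases hx with hx | hx
        · exact (le_sup hx).trans h1
        · rw [eq_of_mem_replicate hx]
    refine ⟨(add_tsub_cancel_right _ _).symm, ?_⟩
    rw [h3, sum_add, sum_replicate]
    simp
  · right
    left
    have h3 : (l.sup ::ₘ l).sup = l.sup := by
      apply sup_eq' (mem_cons_self _ _)
      intro x hx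
      rw [mem_cons] at hx
      rcases hx with rfl | hx
      · exact le_rfl
      · exact le_sup hx
    rw [h3, erase_cons_head, sum_cons]
    exact ⟨rfl, by ring⟩
  · right
    right
    have hl0 : l ≠ 0 := by
      rintro rfl
      simp at h1
    have hc : 0 < card l := card_pos.2 hl0
    have h3 : ((T l).sup ::ₘ 1 ::ₘ T l).sup = (T l).sup := by
      apply sup_eq' (mem_cons_self _ _)
      intro x hx
      rw [mem_cons, mem_cons] at hx
      rcases hx with rfl | rfl | hx
      · exact le_rfl
      · omega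
      · exact le_sup hx
    rw [h3, erase_cons_head, erase_cons_head, sum_cons, sum_cons, t2, t5]
    exact ⟨rfl, by ring⟩

lemma mu_inj (T : Multiset ℕ → Multiset ℕ) (hT : IsT T) (l l' : Multiset ℕ)
    (hl : ∀ d ∈ l, 1 ≤ d) (hl' : ∀ d ∈ l', 1 ≤ d) (hs : l.sum = l'.sum)
    (h : mu T l = mu T l') : l = l' := by
  have c1 := mu_cases T hT l hl
  have c2 := mu_cases T hT l' hl'
  rw [h] at c1
  rcases c1 with ⟨a1, b1⟩ | ⟨a1, b1⟩ | ⟨a1, b1⟩ <;> rcases c2 with ⟨a2, b2⟩ | ⟨a2, b2⟩ | ⟨a2, b2⟩ <;>
    first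
    | (exfalso; omega)
    | (rw [a1]; exact a2.symm)

lemma card_le_sum (s : Multiset ℕ) (h : ∀ d ∈ s, 1 ≤ d) : card s ≤ s.sum := by
  induction s using Multiset.induction_on with
  | empty => simp
  | cons a t ih =>
    rw [card_cons, sum_cons]
    have h1 := h a (mem_cons_self _ _)
    have h2 := ih (fun d hd => h d (mem_cons_of_mem hd))
    omega

lemma sup_card (s : Multiset ℕ) (h : ∀ d ∈ s, 1 ≤ d) (h0 : s ≠ 0) :
    s.sup + card s ≤ s.sum + 1 := by
  obtain ⟨t, ht⟩ := exists_cons_of_mem (sup_mem s h0)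
  have h1 := card_le_sum t (fun d hd => h d (by rw [ht]; exact mem_cons_of_mem hd))
  have h2 : card s = card t + 1 := by
    rw [ht]
    simp
  have h3 : s.sum = s.sup + t.sum := by
    conv_lhs => rw [ht]
    rw [sum_cons]
  omega

lemma mu_room (T : Multiset ℕ → Multiset ℕ) (hT : IsT T) (l : Multiset ℕ) (hl : ∀ d ∈ l, 1 ≤ d) :
    (mu T l).sum + card (mu T l) ≤ 2 * l.sum + 6 := by
  unfold mu
  obtain ⟨t1, t2, t3, t4, t5⟩ := hT l hl
  have hc1 := card_le_sum l hl
  split_ifs with h1 h2
  · rw [sum_add, card_add, sum_replicate, card_replicate]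
    simp only [smul_eq_mul]
    omega
  · have hl0 : l ≠ 0 := by
      rintro rfl
      simp at h1
    have h3 := sup_card l hl hl0
    rw [sum_cons, card_cons]
    omega
  · have hl0 : l ≠ 0 := by
      rintro rfl
      simp at h1
    have h3 := sup_card l hl hl0
    rw [sum_cons, card_cons, sum_cons, card_cons, t2, t3, t4]
    omega

end PhiB

open Multiset in
theorem p_PHI15 (hEMB : S_EMB) (hLAM : S_LAM) (hCONJ : S_CONJ) (hCL2 : S_CL2) : S_PHI := by
  classical
  obtain ⟨T, hT⟩ := hCONJ
  intro n M hn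
  have hcard : ∀ s ∈ GS n M, card s = n := by
    rintro s ⟨⟨G, rfl⟩, _⟩
    simp [degs]
  have hpos : ∀ s ∈ GS n M, 0 ∉ s → (∀ d ∈ s, 1 ≤ d) := by
    intro s _ h0 d hd
    rcases Nat.eq_zero_or_pos d with rfl | h
    · exact absurd hd h0
    · exact h
  have hl : ∀ s ∈ GS n M, 0 ∉ s → (lam s).sum + n = 2 * M ∧ (∀ d ∈ lam s, 1 ≤ d) ∧
      s = (lam s).map (· + 1) + replicate (n - (lam s).card) 1 := by
    intro s hs h0
    have h1 := hLAM.2 s (hpos s hs h0)
    rw [hcard s hs, hs.2] at h1
    exact h1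
  let phi : Multiset ℕ → Multiset ℕ := fun s =>
    if 0 ∈ s then PhiB.f1 s else emb n M (PhiB.mu T (lam s))
  have hne : ∀ s ∈ GS n M, ∀ s' ∈ GS n M, 0 ∈ s → 0 ∉ s' →
      PhiB.f1 s ≠ emb n M (PhiB.mu T (lam s')) := by
    intro s hs s' hs' h0 h0' h
    obtain ⟨_, hl2, _⟩ := hl s' hs' h0'
    obtain ⟨m1, b, hb1, hb2, hb3⟩ := PhiB.mu_spec T hT (lam s') hl2
    set m := PhiB.mu T (lam s') with hm
    have hc1 : 2 ≤ (emb n M m).count (b + 1) := by
      unfold emb
      rw [count_add, count_add]
      have : (m.map (· + 1)).count (b + 1) = m.count b :=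
        count_map_eq_count' (fun x : ℕ => x + 1) m (fun x y hxy => by
          simpa using hxy) b
      omega
    rw [← h] at hc1
    unfold PhiB.f1 at hc1
    have hle := PhiB.f1_le s
    have h2 : b + 1 ≤ s.sup := by
      by_contra hcon
      have h3 : b + 1 ∉ (s.erase s.sup).erase 0 := fun hx => hcon (hle _ hx)
      rw [count_cons, count_cons_of_ne (by omega), count_eq_zero_of_notMem h3] at hc1
      split_ifs at hc1 <;> omega
    have h4 : s.sup + 1 ∈ emb n M m := by
      rw [← h]
      exact mem_cons_self _ _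
    unfold emb at h4
    rw [mem_add, mem_add, mem_map] at h4
    rcases h4 with (⟨x, hx, hx2⟩ | h4) | h4
    · have := hb3 x hx
      omega
    · have := eq_of_mem_replicate h4
      omega
    · have := eq_of_mem_replicate h4
      omega
  refine ⟨phi, ?_, ?_, ?_⟩
  · intro s hs
    by_cases h0 : 0 ∈ s
    · have e : phi s = PhiB.f1 s := if_pos h0
      rw [e]
      have hc := hcard s hs
      have hk := PhiB.key1 s h0 (by omega)
      constructor
      · apply hCL2
        rw [hk]
        exact hs.1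
      · unfold PhiB.f1
        have h1 := hs.2
        rw [← hk, sum_cons, sum_cons] at h1
        rw [sum_cons, sum_cons]
        omega
    · have e : phi s = emb n M (PhiB.mu T (lam s)) := if_neg h0
      rw [e]
      obtain ⟨hl1, hl2, _⟩ := hl s hs h0
      have hE := fun l => hEMB n M (2 * M - n) (n - M) l (by omega) (by omega) (by omega)
      obtain ⟨t1, t2, t3, t4, t5⟩ := hT (lam s) hl2
      unfold PhiB.mu
      split_ifs with h1 h2
      · exact (hE _ hl2 (by omega)).1 h1
      · exact (hE _ hl2 (by omega)).2.1 (by omega) h2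
      · have hl0 : lam s ≠ 0 := by
          intro h
          rw [h] at h1
          simp at h1
        have hc : 0 < card (lam s) := card_pos.2 hl0
        exact (hE _ t1 (by omega)).2.2 (by omega) (by omega)
  · intro s hs s' hs' h
    by_cases h0 : 0 ∈ s <;> by_cases h0' : 0 ∈ s'
    · have e : phi s = PhiB.f1 s := if_pos h0
      have e' : phi s' = PhiB.f1 s' := if_pos h0'
      rw [e, e'] at h
      have hc := hcard s hs
      have hc' := hcard s' hs'
      exact PhiB.f1_inj h0 (by omega) h0' (by omega) h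
    · have e : phi s = PhiB.f1 s := if_pos h0
      have e' : phi s' = emb n M (PhiB.mu T (lam s')) := if_neg h0'
      rw [e, e'] at h
      exact absurd h (hne s hs s' hs' h0 h0')
    · have e : phi s = emb n M (PhiB.mu T (lam s)) := if_neg h0
      have e' : phi s' = PhiB.f1 s' := if_pos h0'
      rw [e, e'] at h
      exact absurd h.symm (hne s' hs' s hs h0' h0)
    · have e : phi s = emb n M (PhiB.mu T (lam s)) := if_neg h0
      have e' : phi s' = emb n M (PhiB.mu T (lam s')) := if_neg h0'
      rw [e, e'] at h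
      obtain ⟨a1, a2, a3⟩ := hl s hs h0
      obtain ⟨b1, b2, b3⟩ := hl s' hs' h0'
      have h1 : PhiB.mu T (lam s) = PhiB.mu T (lam s') := by
        rw [← hLAM.1 n M _ (PhiB.mu_spec T hT (lam s) a2).1, h,
          hLAM.1 n M _ (PhiB.mu_spec T hT (lam s') b2).1]
      have h2 := PhiB.mu_inj T hT _ _ a2 b2 (by omega) h1
      rw [a3, b3, h2]
  · intro s hs
    by_cases h0 : 0 ∈ s
    · have e : phi s = PhiB.f1 s := if_pos h0
      rw [e]
      constructor
      · exact mem_cons_of_mem (mem_cons_self _ _)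
      · intro hM
        have h1 : 1 ≤ s.sup := by
          by_contra hcon
          have h2 : ∀ x ∈ s, x = 0 := by
            intro x hx
            have := le_sup hx
            omega
          have h3 : s.sum = 0 := by
            rw [sum_eq_zero_iff]
            exact h2
          have := hs.2
          omega
        have h4 : s.sup + 1 ≤ (PhiB.f1 s).sup := le_sup (mem_cons_self _ _)
        omega
    · have e : phi s = emb n M (PhiB.mu T (lam s)) := if_neg h0
      rw [e]
      obtain ⟨a1, a2, a3⟩ := hl s hs h0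
      have hr := PhiB.mu_room T hT (lam s) a2
      obtain ⟨m1, b, hb1, hb2, hb3⟩ := PhiB.mu_spec T hT (lam s) a2
      constructor
      · unfold emb
        rw [mem_add, mem_add]
        left
        right
        rw [mem_replicate]
        exact ⟨by omega, rfl⟩
      · intro _
        have h4 : b + 1 ∈ emb n M (PhiB.mu T (lam s)) := by
          unfold emb
          rw [mem_add, mem_add]
          left
          left
          rw [mem_map]
          exact ⟨b, count_pos.1 (by omega), rfl⟩
        have := le_sup h4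
        omega

end Pool.Agent.Work.MP_0eb8a1_h84
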