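import Pool.Agent.Work.MP_0eb8a1_h84.Interface2

/-! Block PHI (second typist). -/

namespace Pool.Agent.Work.MP_0eb8a1_h84

namespace PhiH73

theorem gs_card {n M : ℕ} {s : Multiset ℕ} (h : s ∈ GS n M) : s.card = n := by
  obtain ⟨⟨G, rfl⟩, -⟩ := h
  simp [degs]

theorem gs_fin (n M : ℕ) : (GS n M).Finite := by
  refine (Set.finite_range (fun G : SimpleGraph (Fin n) => degs G)).subset ?_
  rintro s ⟨⟨G, rfl⟩, -⟩
  exact ⟨G, rfl⟩

theorem sup_mem {s : Multiset ℕ} (h : s ≠ 0) : s.sup ∈ s := by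
  induction s using Multiset.induction_on with
  | empty => exact absurd rfl h
  | cons a s ih =>
    rw [Multiset.sup_cons]
    by_cases hs : s = 0
    · subst hs; simp
    · rcases le_total a s.sup with h1 | h1
      · rw [sup_eq_right.2 h1]; exact Multiset.mem_cons_of_mem (ih hs)
      · rw [sup_eq_left.2 h1]; exact Multiset.mem_cons_self _ _

theorem split0 {s : Multiset ℕ} (h0 : 0 ∈ s) (h2 : 2 ≤ s.card) :
    s = s.sup ::ₘ 0 ::ₘ ((s.erase s.sup).erase 0) := by
  have hne : s ≠ 0 := by rintro rfl; simp at h0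
  have h1 : 0 ∈ s.erase s.sup := by
    by_cases h : s.sup = 0
    · have h3 : (s.erase s.sup) ≠ 0 := by
        intro h4
        have := Multiset.card_erase_of_mem (sup_mem hne)
        rw [h4] at this
        simp at this
        omega
      obtain ⟨x, hx⟩ := Multiset.exists_mem_of_ne_zero h3
      have h5 : x ∈ s := Multiset.mem_of_mem_erase hx
      have h6 : x ≤ s.sup := Multiset.le_sup h5
      have h7 : x = 0 := by omega
      exact h7 ▸ hx
    · exact (Multiset.mem_erase_of_ne (Ne.symm h)).2 h0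
  rw [Multiset.cons_erase h1, Multiset.cons_erase (sup_mem hne)]

/-- the first kind -/
noncomputable def f1 (s : Multiset ℕ) : Multiset ℕ :=
  (s.sup + 1) ::ₘ 1 ::ₘ ((s.erase s.sup).erase 0)

/-- the second kind has this property -/
def P (E : Multiset ℕ) : Prop := 2 ≤ E.sup ∧ 2 ≤ E.count E.sup

theorem f1_sup (s : Multiset ℕ) : (f1 s).sup = s.sup + 1 := by
  unfold f1
  rw [Multiset.sup_cons, Multiset.sup_cons]
  have h1 : ((s.erase s.sup).erase 0).sup ≤ s.sup := Multiset.sup_mono
    (fun x hx => Multiset.mem_of_mem_erase (Multiset.mem_of_mem_erase hx))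
  rw [sup_eq_left]
  exact sup_le (by omega) (by omega)

theorem f1_notP (s : Multiset ℕ) : ¬ P (f1 s) := by
  rintro ⟨h1, h2⟩
  rw [f1_sup] at h1 h2
  unfold f1 at h2
  rw [Multiset.count_cons_self, Multiset.count_cons_of_ne (by omega),
    Multiset.count_eq_zero_of_notMem] at h2
  · omega
  · intro h3
    have h4 : s.sup + 1 ≤ s.sup :=
      Multiset.le_sup (Multiset.mem_of_mem_erase (Multiset.mem_of_mem_erase h3))
    omega

theorem cons2_inj {a b : ℕ} {X Y : Multiset ℕ} (h1 : a = b)
    (h : (a + 1) ::ₘ 1 ::ₘ X = (b + 1) ::ₘ 1 ::ₘ Y) : X = Y := by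
  subst h1
  exact (Multiset.cons_inj_right _).1 ((Multiset.cons_inj_right _).1 h)

theorem f1_inj {s t : Multiset ℕ} (hs : 0 ∈ s) (hs2 : 2 ≤ s.card) (ht : 0 ∈ t) (ht2 : 2 ≤ t.card)
    (h : f1 s = f1 t) : s = t := by
  have h1 : s.sup = t.sup := by
    have := congrArg Multiset.sup h
    rw [f1_sup, f1_sup] at this
    omega
  have h2 : (s.erase s.sup).erase 0 = (t.erase t.sup).erase 0 := cons2_inj h1 h
  calc s = s.sup ::ₘ 0 ::ₘ ((s.erase s.sup).erase 0) := split0 hs hs2
    _ = t.sup ::ₘ 0 ::ₘ ((t.erase t.sup).erase 0) := by rw [h2, h1]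
    _ = t := (split0 ht ht2).symm

theorem emb_sup {n M : ℕ} {mu : Multiset ℕ} (h : mu ≠ 0) : (emb n M mu).sup = mu.sup + 1 := by
  apply le_antisymm
  · apply Multiset.sup_le.2
    intro b hb
    unfold emb at hb
    rw [Multiset.mem_add, Multiset.mem_add] at hb
    rcases hb with (hb | hb) | hb
    · obtain ⟨x, hx, rfl⟩ := Multiset.mem_map.1 hb
      exact Nat.succ_le_succ (Multiset.le_sup hx)
    · have := Multiset.eq_of_mem_replicate hb
      omega
    · have := Multiset.eq_of_mem_replicate hb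
      omega
  · apply Multiset.le_sup
    unfold emb
    rw [Multiset.mem_add, Multiset.mem_add]
    exact Or.inl (Or.inl (Multiset.mem_map.2 ⟨_, sup_mem h, rfl⟩))

theorem emb_count {n M : ℕ} {mu : Multiset ℕ} (a : ℕ) :
    mu.count a ≤ (emb n M mu).count (a + 1) := by
  unfold emb
  rw [Multiset.count_add, Multiset.count_add]
  have h1 : (mu.map (· + 1)).count (a + 1) = mu.count a :=
    Multiset.count_map_eq_count' (fun x : ℕ => x + 1) mu (fun a b h => by simpa using h) a
  omega

theorem emb_P {n M : ℕ} {mu : Multiset ℕ} (h1 : 1 ≤ mu.sup) (h2 : 2 ≤ mu.count mu.sup) :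
    P (emb n M mu) := by
  have hne : mu ≠ 0 := by rintro rfl; simp at h1
  refine ⟨by rw [emb_sup hne]; omega, ?_⟩
  rw [emb_sup hne]
  exact h2.trans (emb_count _)

/-- the new partition -/
noncomputable def nu (T : Multiset ℕ → Multiset ℕ) (l : Multiset ℕ) : Multiset ℕ :=
  if l.sup ≤ 1 then l + Multiset.replicate 3 1
  else if l.sup ≤ l.card then l.sup ::ₘ l
  else (T l).sup ::ₘ 1 ::ₘ T l

/-- conjugation of partitions -/
def IsConj (T : Multiset ℕ → Multiset ℕ) : Prop := ∀ s : Multiset ℕ, (∀ d ∈ s, 1 ≤ d) →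
  (∀ d ∈ T s, 1 ≤ d) ∧ (T s).sum = s.sum ∧ (T s).card = s.sup ∧ (T s).sup = s.card ∧
    T (T s) = s

theorem nu_spec {T : Multiset ℕ → Multiset ℕ} (hT : IsConj T) {l : Multiset ℕ}
    (hl : ∀ d ∈ l, 1 ≤ d) :
    (∀ d ∈ nu T l, 1 ≤ d) ∧ 1 ≤ (nu T l).sup ∧ 2 ≤ (nu T l).count (nu T l).sup ∧
    ((nu T l = l + Multiset.replicate 3 1 ∧ (nu T l).sum = (nu T l).sup + (l.sum + 2)) ∨
     (nu T l = (nu T l).sup ::ₘ l ∧ (nu T l).sum = (nu T l).sup + l.sum) ∨
     (nu T l = (nu T l).sup ::ₘ 1 ::ₘ T l ∧ (nu T l).sum = (nu T l).sup + (l.sum + 1))) := by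
  by_cases h1 : l.sup ≤ 1
  · have e : nu T l = l + Multiset.replicate 3 1 := by
      unfold nu
      rw [if_pos h1]
    have e1 : (l + Multiset.replicate 3 1 : Multiset ℕ).sup = 1 := by
      rw [Multiset.sup_add]
      have : (Multiset.replicate 3 1 : Multiset ℕ).sup = 1 := by simp [Multiset.replicate_succ]
      rw [this]
      exact sup_eq_right.2 h1
    rw [e, e1]
    refine ⟨?_, le_refl 1, ?_, Or.inl ⟨rfl, ?_⟩⟩
    · intro d hd
      rcases Multiset.mem_add.1 hd with h | h
      · exact hl d h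
      · rw [Multiset.eq_of_mem_replicate h]
    · rw [Multiset.count_add, Multiset.count_replicate_self]
      omega
    · rw [Multiset.sum_add, Multiset.sum_replicate]
      simp
      omega
  · have hne : l ≠ 0 := by rintro rfl; simp at h1
    by_cases h2 : l.sup ≤ l.card
    · have e : nu T l = l.sup ::ₘ l := by
        unfold nu
        rw [if_neg h1, if_pos h2]
      have e1 : (l.sup ::ₘ l).sup = l.sup := by
        rw [Multiset.sup_cons, sup_idem]
      rw [e, e1]
      refine ⟨?_, by omega, ?_, Or.inr (Or.inl ⟨rfl, by rw [Multiset.sum_cons]⟩)⟩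
      · intro d hd
        rcases Multiset.mem_cons.1 hd with h | h
        · omega
        · exact hl d h
      · rw [Multiset.count_cons_self]
        have := Multiset.count_pos.2 (sup_mem hne)
        omega
    · obtain ⟨a1, a2, a3, a4, a5⟩ := hT l hl
      have hc : 0 < l.card := Multiset.card_pos.2 hne
      have hne' : T l ≠ 0 := by
        intro h
        rw [h] at a3
        simp at a3
        omega
      have e : nu T l = (T l).sup ::ₘ 1 ::ₘ T l := by
        unfold nu
        rw [if_neg h1, if_neg h2]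
      have e1 : ((T l).sup ::ₘ 1 ::ₘ T l).sup = (T l).sup := by
        rw [Multiset.sup_cons, Multiset.sup_cons]
        exact sup_eq_left.2 (sup_le (by omega) le_rfl)
      rw [e, e1]
      refine ⟨?_, by omega, ?_, Or.inr (Or.inr ⟨rfl, by rw [Multiset.sum_cons, Multiset.sum_cons]; omega⟩)⟩
      · intro d hd
        rcases Multiset.mem_cons.1 hd with h | h
        · omega
        · rcases Multiset.mem_cons.1 h with h | h
          · omega
          · exact a1 d h
      · rw [Multiset.count_cons_self]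
        have h5 := Multiset.count_pos.2 (sup_mem hne')
        have h6 : (T l).count (T l).sup ≤ (1 ::ₘ T l).count (T l).sup :=
          Multiset.count_le_count_cons _ _ _
        omega

theorem nu_inj {T : Multiset ℕ → Multiset ℕ} (hT : IsConj T) {l l' : Multiset ℕ}
    (hl : ∀ d ∈ l, 1 ≤ d) (hl' : ∀ d ∈ l', 1 ≤ d) (hs : l.sum = l'.sum)
    (h : nu T l = nu T l') : l = l' := by
  obtain ⟨-, -, -, a⟩ := nu_spec hT hl
  obtain ⟨-, -, -, b⟩ := nu_spec hT hl'
  rw [← h] at b
  generalize nu T l = m at a b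
  rcases a with ⟨a1, a2⟩ | ⟨a1, a2⟩ | ⟨a1, a2⟩ <;> rcases b with ⟨b1, b2⟩ | ⟨b1, b2⟩ | ⟨b1, b2⟩
  · exact add_right_cancel (a1.symm.trans b1)
  · omega
  · omega
  · omega
  · exact (Multiset.cons_inj_right _).1 (a1.symm.trans b1)
  · omega
  · omega
  · omega
  · have h1 : T l = T l' :=
      (Multiset.cons_inj_right _).1 ((Multiset.cons_inj_right _).1 (a1.symm.trans b1))
    rw [← (hT l hl).2.2.2.2, ← (hT l' hl').2.2.2.2, h1]

theorem nu_mem (hEMB : S_EMB) {T : Multiset ℕ → Multiset ℕ} (hT : IsConj T) {n M : ℕ}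
    {l : Multiset ℕ} (hn : M + 3 ≤ n) (hl : ∀ d ∈ l, 1 ≤ d) (hsum : l.sum + n = 2 * M) :
    emb n M (nu T l) ∈ GS n (M + 1) := by
  unfold nu
  split_ifs with h1 h2
  · exact (hEMB n M (2 * M - n) (n - M) l (by omega) (by omega) (by omega) hl (by omega)).1 h1
  · exact (hEMB n M (2 * M - n) (n - M) l (by omega) (by omega) (by omega) hl
      (by omega)).2.1 (by omega) h2
  · obtain ⟨a1, a2, a3, a4, a5⟩ := hT l hl
    have hne : l ≠ 0 := by rintro rfl; simp at h1
    have hc : 0 < l.card := Multiset.card_pos.2 hne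
    exact (hEMB n M (2 * M - n) (n - M) (T l) (by omega) (by omega) (by omega) a1
      (by omega)).2.2 (by omega) (by omega)

theorem sup_card {l : Multiset ℕ} (hl : ∀ d ∈ l, 1 ≤ d) : l.sup + l.card ≤ l.sum + 1 := by
  by_cases hne : l = 0
  · subst hne; simp
  · have h1 := Multiset.cons_erase (sup_mem hne)
    have h2 : (l.erase l.sup).card ≤ (l.erase l.sup).sum := by
      have h3 : ∀ d ∈ l.erase l.sup, 1 ≤ d := fun d hd => hl d (Multiset.mem_of_mem_erase hd)
      have h4 := Multiset.card_nsmul_le_sum h3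
      simpa using h4
    have h5 : l.card = (l.erase l.sup).card + 1 := by
      conv_lhs => rw [← h1]
      rw [Multiset.card_cons]
    have h6 : l.sum = l.sup + (l.erase l.sup).sum := by
      conv_lhs => rw [← h1]
      rw [Multiset.sum_cons]
    omega

theorem card_le_sum {l : Multiset ℕ} (hl : ∀ d ∈ l, 1 ≤ d) : l.card ≤ l.sum := by
  have h4 := Multiset.card_nsmul_le_sum hl
  simpa using h4

theorem one_mem {T : Multiset ℕ → Multiset ℕ} (hT : IsConj T) {n M : ℕ}
    {l : Multiset ℕ} (hn : M + 3 ≤ n) (hl : ∀ d ∈ l, 1 ≤ d) (hsum : l.sum + n = 2 * M) :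
    1 ∈ emb n M (nu T l) := by
  have key : (nu T l).sum + (nu T l).card < 2 * M + 2 → 1 ∈ emb n M (nu T l) := by
    intro h
    unfold emb
    rw [Multiset.mem_add, Multiset.mem_add]
    refine Or.inl (Or.inr (Multiset.mem_replicate.2 ⟨by omega, rfl⟩))
  apply key
  unfold nu
  split_ifs with h1 h2
  · rw [Multiset.sum_add, Multiset.card_add, Multiset.sum_replicate, Multiset.card_replicate]
    have := card_le_sum hl
    simp only [smul_eq_mul, mul_one]
    omega
  · rw [Multiset.sum_cons, Multiset.card_cons]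
    have := sup_card hl
    omega
  · obtain ⟨a1, a2, a3, a4, a5⟩ := hT l hl
    rw [Multiset.sum_cons, Multiset.card_cons, Multiset.sum_cons, Multiset.card_cons]
    have := sup_card a1
    omega

end PhiH73

open PhiH73 in
theorem p_PHI (hEMB : S_EMB) (hLAM : S_LAM) (hCONJ : S_CONJ) (hCL2 : S_CL2) : S_PHI := by
  classical
  intro n M hn
  obtain ⟨T, hT⟩ := hCONJ
  obtain ⟨hL1, hL2⟩ := hLAM
  have pos : ∀ s : Multiset ℕ, 0 ∉ s → ∀ d ∈ s, 1 ≤ d := by
    intro s h0 d hd
    rcases Nat.eq_zero_or_pos d with h | h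
    · exact absurd (h ▸ hd) h0
    · exact h
  have sec : ∀ s ∈ GS n M, 0 ∉ s → (∀ d ∈ lam s, 1 ≤ d) ∧ (lam s).sum + n = 2 * M ∧
      s = (lam s).map (· + 1) + Multiset.replicate (n - (lam s).card) 1 := by
    intro s hs h0
    obtain ⟨a, b, c⟩ := hL2 s (pos s h0)
    have h1 := gs_card hs
    rw [h1] at a c
    exact ⟨b, a.trans hs.2, c⟩
  refine ⟨fun s => if 0 ∈ s then f1 s else emb n M (nu T (lam s)), ?_, ?_, ?_⟩
  · intro s hs
    by_cases h0 : 0 ∈ s
    · show (if 0 ∈ s then f1 s else emb n M (nu T (lam s))) ∈ GS n (M + 1)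
      rw [if_pos h0]
      have h1 := split0 h0 (by rw [gs_card hs]; omega)
      obtain ⟨h2, h3⟩ := hs
      constructor
      · rw [h1] at h2
        exact hCL2 n _ _ h2
      · have h4 : (f1 s).sum = s.sum + 2 := by
          have h5 := congrArg Multiset.sum h1
          rw [Multiset.sum_cons, Multiset.sum_cons] at h5
          unfold f1
          rw [Multiset.sum_cons, Multiset.sum_cons]
          omega
        rw [h4, h3]
        ring
    · show (if 0 ∈ s then f1 s else emb n M (nu T (lam s))) ∈ GS n (M + 1)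
      rw [if_neg h0]
      obtain ⟨a, b, -⟩ := sec s hs h0
      exact nu_mem hEMB hT hn a b
  · intro s hs t ht h
    change (if 0 ∈ s then f1 s else emb n M (nu T (lam s))) =
      (if 0 ∈ t then f1 t else emb n M (nu T (lam t))) at h
    have hsP : 0 ∉ s → P (emb n M (nu T (lam s))) := fun h0 =>
      emb_P (nu_spec hT (sec s hs h0).1).2.1 (nu_spec hT (sec s hs h0).1).2.2.1
    have htP : 0 ∉ t → P (emb n M (nu T (lam t))) := fun h0 =>
      emb_P (nu_spec hT (sec t ht h0).1).2.1 (nu_spec hT (sec t ht h0).1).2.2.1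
    by_cases h0 : 0 ∈ s <;> by_cases h0' : 0 ∈ t
    · rw [if_pos h0, if_pos h0'] at h
      exact f1_inj h0 (by rw [gs_card hs]; omega) h0' (by rw [gs_card ht]; omega) h
    · rw [if_pos h0, if_neg h0'] at h
      exact absurd (htP h0') (h ▸ f1_notP s)
    · rw [if_neg h0, if_pos h0'] at h
      exact absurd (hsP h0) (h ▸ f1_notP t)
    · rw [if_neg h0, if_neg h0'] at h
      obtain ⟨a, b, c⟩ := sec s hs h0
      obtain ⟨a', b', c'⟩ := sec t ht h0'
      have h1 := congrArg lam h
      rw [hL1 n M _ (nu_spec hT a).1, hL1 n M _ (nu_spec hT a').1] at h1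
      have h2 := nu_inj hT a a' (by omega) h1
      rw [c, c', h2]
  · intro s hs
    by_cases h0 : 0 ∈ s
    · show 1 ∈ (if 0 ∈ s then f1 s else emb n M (nu T (lam s))) ∧
        (1 ≤ M → 2 ≤ (if 0 ∈ s then f1 s else emb n M (nu T (lam s))).sup)
      rw [if_pos h0]
      refine ⟨?_, fun hM => ?_⟩
      · unfold f1
        exact Multiset.mem_cons_of_mem (Multiset.mem_cons_self _ _)
      · rw [f1_sup]
        by_contra hc
        have h1 : s.sup = 0 := by omega
        have h2 : ∀ d ∈ s, d = 0 := fun d hd => by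
          have := Multiset.le_sup hd
          omega
        have h3 : s.sum = 0 := Multiset.sum_eq_zero h2
        have h4 := hs.2
        omega
    · show 1 ∈ (if 0 ∈ s then f1 s else emb n M (nu T (lam s))) ∧
        (1 ≤ M → 2 ≤ (if 0 ∈ s then f1 s else emb n M (nu T (lam s))).sup)
      rw [if_neg h0]
      obtain ⟨a, b, -⟩ := sec s hs h0
      refine ⟨one_mem hT hn a b, fun _ => ?_⟩
      exact (emb_P (nu_spec hT a).2.1 (nu_spec hT a).2.2.1).1

end Pool.Agent.Work.MP_0eb8a1_h84
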