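import Mathlib

/-!
# MP_0eb8a1_co: definitions

Forcibly connected graphical partitions (problem MP_0eb8a1_co).  A partition with `n` parts is a
multiset of `n` positive integers.
-/

namespace Pool.Agent.Work.MP_0eb8a1_h84

/-- The multiset of the degrees of a graph on `n` vertices. -/
noncomputable def degs {n : ℕ} (G : SimpleGraph (Fin n)) : Multiset ℕ :=
  Finset.univ.val.map fun v => (G.neighborSet v).ncard

/-- `s` is the multiset of the degrees of a graph on `n` vertices (zeros are allowed here). -/
def Graphical (n : ℕ) (s : Multiset ℕ) : Prop := ∃ G : SimpleGraph (Fin n), degs G = s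

/-- `s` is graphical and every realization of `s` is connected. -/
def ForciblyConnected (n : ℕ) (s : Multiset ℕ) : Prop :=
  Graphical n s ∧ ∀ G : SimpleGraph (Fin n), degs G = s → G.Connected

/-- `F(n, N)`: the number of the forcibly connected graphical partitions of `N` with exactly `n`
parts. -/
noncomputable def F (n N : ℕ) : ℕ :=
  {s : Multiset ℕ | s.card = n ∧ (∀ d ∈ s, 1 ≤ d) ∧ s.sum = N ∧ ForciblyConnected n s}.ncard

end Pool.Agent.Work.MP_0eb8a1_h84
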