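import Pool.Agent.Work.MP_0eb8a1_h84.Defs

/-! # Statements of the blocks -/

namespace Pool.Agent.Work.MP_0eb8a1_h84

/-- The graphical multisets (zeros allowed) of graphs with `n` vertices and `M` edges. -/
def GS (n M : ℕ) : Set (Multiset ℕ) := {s | Graphical n s ∧ s.sum = 2 * M}

/-- CON: few missing edges force connectedness. -/
def S_CON : Prop := ∀ (n M : ℕ) (G : SimpleGraph (Fin n)), M + 2 ≤ n →
  (degs G).sum + 2 * M = n * (n - 1) → G.Connected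

/-- CMP: complements. -/
def S_CMP : Prop := ∀ n M : ℕ, M + 2 ≤ n → F n (n * (n - 1) - 2 * M) = (GS n M).ncard

/-- CL1: an isolated vertex more. -/
def S_CL1 : Prop := ∀ (n : ℕ) (s : Multiset ℕ), Graphical n s → Graphical (n + 1) (0 ::ₘ s)

/-- CL2: an edge from a vertex of degree `d` to an isolated vertex. -/
def S_CL2 : Prop := ∀ (n d : ℕ) (t : Multiset ℕ), Graphical n (d ::ₘ 0 ::ₘ t) →
  Graphical n ((d + 1) ::ₘ 1 ::ₘ t)

/-- CL4: disjoint union. -/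
def S_CL4 : Prop := ∀ (n m : ℕ) (s t : Multiset ℕ), Graphical n s → Graphical m t →
  Graphical (n + m) (s + t)

/-- HUB: two adjacent vertices with `a` common neighbours. -/
def S_HUB : Prop := ∀ a : ℕ,
  Graphical (a + 2) ((a + 1) ::ₘ (a + 1) ::ₘ Multiset.replicate a 2)

/-- FL: the degrees of forests. -/
def S_FL : Prop := ∀ s : Multiset ℕ, (∀ d ∈ s, 1 ≤ d) → Even s.sum → s.sum + 2 ≤ 2 * s.card →
  Graphical s.card s

/-- RL: raise degrees with the help of leaves. -/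
def S_RL : Prop := ∀ h e : Multiset ℕ, Multiset.Rel (· ≤ ·) h e → ∀ t : Multiset ℕ,
  Graphical (h.card + t.card) (h + t) →
  Graphical (e.card + t.card + (e.sum - h.sum))
    (e + t + Multiset.replicate (e.sum - h.sum) 1)

/-- CONJ: conjugate partitions. -/
def S_CONJ : Prop := ∃ T : Multiset ℕ → Multiset ℕ, ∀ s : Multiset ℕ, (∀ d ∈ s, 1 ≤ d) →
  (∀ d ∈ T s, 1 ≤ d) ∧ (T s).sum = s.sum ∧ (T s).card = s.sup ∧ (T s).sup = s.card ∧
    T (T s) = s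

/-- E1: first family. -/
def S_E1 : Prop := ∀ (r c : ℕ) (l : Multiset ℕ), 3 ≤ c → (∀ d ∈ l, 1 ≤ d) → l.sum = r →
  1 ≤ l.sup → l.sup ≤ l.card →
  l.sup + l.card ≤ r + 1 ∧
  Graphical (r + 2 * c + 2 - l.sup)
    ((l.sup + 1) ::ₘ l.map (· + 1) + Multiset.replicate (r + 2 * c + 1 - l.sup - l.card) 1)

/-- E3: second family. -/
def S_E3 : Prop := ∀ (r c : ℕ) (l : Multiset ℕ), 3 ≤ c → (∀ d ∈ l, 1 ≤ d) → l.sum = r →
  1 ≤ l.sup → l.sup < l.card →
  l.sup + l.card ≤ r + 1 ∧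
  Graphical (r + 2 * c + 1 - l.sup)
    ((l.sup + 1) ::ₘ 2 ::ₘ l.map (· + 1) + Multiset.replicate (r + 2 * c - 1 - l.sup - l.card) 1)

/-- EMB: the three families as sets `GS`: for a partition `l` of `r` (not all parts `≤ 1` in case
(1)) the multisets with positive parts `mu + 1` and ones. -/
def emb (n M : ℕ) (mu : Multiset ℕ) : Multiset ℕ :=
  mu.map (· + 1) + Multiset.replicate (2 * M + 2 - mu.sum - mu.card) 1 +
    Multiset.replicate (n + mu.sum - 2 * M - 2) 0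

def S_EMB : Prop := ∀ (n M r c : ℕ) (l : Multiset ℕ), 3 ≤ c → n = r + 2 * c → M = r + c →
  (∀ d ∈ l, 1 ≤ d) → l.sum = r →
  (l.sup ≤ 1 → emb n M (l + Multiset.replicate 3 1) ∈ GS n (M + 1)) ∧
  (2 ≤ l.sup → l.sup ≤ l.card → emb n M (l.sup ::ₘ l) ∈ GS n (M + 1)) ∧
  (1 ≤ l.sup → l.sup < l.card → emb n M (l.sup ::ₘ 1 ::ₘ l) ∈ GS n (M + 1))

/-- LAM: from `emb` back to `mu`. -/
def lam (s : Multiset ℕ) : Multiset ℕ := (s.map (· - 1)).filter (0 < ·)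

def S_LAM : Prop := (∀ (n M : ℕ) (mu : Multiset ℕ), (∀ d ∈ mu, 1 ≤ d) → lam (emb n M mu) = mu) ∧
  (∀ s : Multiset ℕ, (∀ d ∈ s, 1 ≤ d) → (lam s).sum + s.card = s.sum ∧ (∀ d ∈ lam s, 1 ≤ d) ∧
    s = (lam s).map (· + 1) + Multiset.replicate (s.card - (lam s).card) 1)

/-- INJ: the inequality. -/
def S_INJ : Prop := ∀ n M : ℕ, M + 3 ≤ n → (GS n M).ncard ≤ (GS n (M + 1)).ncard

/-- The theorem. -/
def S_MAIN : Prop := ∀ n m : ℕ, m + 3 ≤ n →
  F n (n * (n - 1) - 2 * m) ≤ F n (n * (n - 1) - 2 * (m + 1))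

end Pool.Agent.Work.MP_0eb8a1_h84
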