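import Pool.Agent.Work.MP_0eb8a1_h84.Interface

/-! # Statements of the blocks, second part (strict inequality) -/

namespace Pool.Agent.Work.MP_0eb8a1_h84

/-- PHI: the injection. -/
def S_PHI : Prop := ∀ n M : ℕ, M + 3 ≤ n → ∃ phi : Multiset ℕ → Multiset ℕ,
  Set.MapsTo phi (GS n M) (GS n (M + 1)) ∧ Set.InjOn phi (GS n M) ∧
    ∀ s ∈ GS n M, 1 ∈ phi s ∧ (1 ≤ M → 2 ≤ (phi s).sup)

/-- CYC: a cycle and isolated vertices. -/
def S_CYC : Prop := ∀ n M : ℕ, 2 ≤ M → M + 1 ≤ n →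
  Multiset.replicate (M + 1) 2 + Multiset.replicate (n - M - 1) 0 ∈ GS n (M + 1)

/-- ONE: two disjoint edges and isolated vertices. -/
def S_ONE : Prop := ∀ n : ℕ, 4 ≤ n →
  Multiset.replicate 4 1 + Multiset.replicate (n - 4) 0 ∈ GS n 2

/-- STR: the strict inequality. -/
def S_STR : Prop := ∀ n M : ℕ, 1 ≤ M → M + 3 ≤ n → (GS n M).ncard < (GS n (M + 1)).ncard

/-- ZER: no edge and one edge. -/
def S_ZER : Prop := ∀ n : ℕ, 2 ≤ n → (GS n 0).ncard = 1 ∧ (GS n 1).ncard = 1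

/-- The theorem, strict form. -/
def S_MAIN2 : Prop := ∀ n m : ℕ, 1 ≤ m → m + 3 ≤ n →
  F n (n * (n - 1) - 2 * m) < F n (n * (n - 1) - 2 * (m + 1))

end Pool.Agent.Work.MP_0eb8a1_h84
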